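import Mathlib
import Pool.Agent.H361R2.PA.Asm

set_option autoImplicit false
set_option maxHeartbeats 4000000

/-! # From classes modulo the small primes to composite values of linear forms -/

namespace Pool.Agent.N893.FR

open Finset Filter Pool.Agent.H256R2.SC Pool.Agent.H256R2.SC.LG Pool.Agent.H361R2.PA

open scoped Classical

theorem inv_int {p : ℕ} (hp : p.Prime) {c : ℤ} (h : ¬ (p : ℤ) ∣ c) : ∃ i : ℤ, (p : ℤ) ∣ c * i - 1 := by
  have hc : IsCoprime (p : ℤ) c := (Nat.prime_iff_prime_int.1 hp).coprime_iff_not_dvd.2 h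
  obtain ⟨u, v, huv⟩ := hc
  exact ⟨v, -u, by linear_combination huv⟩

/-- number of large prime factors of an integer -/
theorem large_le (m : ℤ) (L : ℝ) (D : ℕ) (hL : 100 ≤ L) (M : ℝ) (hM : |(m : ℝ)| ≤ Real.exp M) (hM0 : 0 ≤ M) :
    (((m.natAbs.primeFactors).filter (fun p : ℕ => L ^ (D + 4) < p)).card : ℝ) ≤ M := by
  by_cases h0 : m.natAbs = 0
  · rw [h0]
    simp only [Nat.primeFactors_zero, filter_empty, card_empty, Nat.cast_zero]
    exact hM0
  · have ht : (1:ℝ) ≤ L ^ (D + 4) := one_le_pow₀ (by linarith)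
    have h1 := card_large_factors _ h0 _ ht
    have h2 : 1 ≤ Real.log (L ^ (D + 4)) := by
      have h3 : Real.exp 1 ≤ L ^ (D + 4) := by
        have := Real.exp_one_lt_d9
        have h4 : L ≤ L ^ (D + 4) := by
          calc L = L ^ 1 := (pow_one L).symm
            _ ≤ L ^ (D + 4) := pow_le_pow_right₀ (by linarith) (by omega)
        linarith
      calc (1:ℝ) = Real.log (Real.exp 1) := (Real.log_exp 1).symm
        _ ≤ _ := Real.log_le_log (Real.exp_pos 1) h3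
    have h3 : Real.log (m.natAbs : ℝ) ≤ M := by
      have e3 : ((m.natAbs : ℕ) : ℝ) = |(m : ℝ)| := by
        rw [Nat.cast_natAbs]
        push_cast
        rfl
      calc Real.log (m.natAbs : ℝ) ≤ Real.log (Real.exp M) := by
            apply Real.log_le_log
            · exact_mod_cast Nat.pos_of_ne_zero h0
            · rw [e3]; exact hM
        _ = M := Real.log_exp _
    have h4 : (0:ℝ) ≤ (((m.natAbs.primeFactors).filter (fun p : ℕ => L ^ (D + 4) < p)).card : ℝ) := Nat.cast_nonneg _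
    nlinarith

theorem assembleP (D : ℕ) : ∃ c : ℝ, 0 < c ∧ ∃ X₀ : ℝ, ∀ X : ℝ, X₀ ≤ X →
    ∀ (ι : Type) (A : Finset ι) (u v : ι → ℤ), (A.card : ℝ) ≤ (Real.log X) ^ 2 →
    (∀ a ∈ A, u a ≠ 0 ∧ |(u a : ℝ)| ≤ Real.exp ((Real.log X) ^ D) ∧ |(v a : ℝ)| ≤ Real.exp ((Real.log X) ^ D)) →
    (∀ a ∈ A, ∀ a' ∈ A, a ≠ a' → u a * v a' ≠ u a' * v a) →
    ∀ b : ℕ → ℕ,
    (((A.filter (fun a => ∀ p : ℕ, p.Prime → (p : ℝ) ≤ Real.log X / 10 →
      ¬ (p : ℤ) ∣ u a * (b p : ℤ) + v a)).card : ℕ) : ℝ) ≤ c * Real.log X →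
    ∀ z : ℤ, ∃ n : ℤ, (z : ℝ) + X / 4 < n ∧ (n : ℝ) ≤ z + X ∧
      (∀ p : ℕ, p.Prime → (p : ℝ) ≤ Real.log X / 10 → (p : ℤ) ∣ n - b p) ∧
      ∀ a ∈ A, ¬ Prime (u a * n + v a) := by
  obtain ⟨c, hc, X₁, hcov⟩ := coveringD (D + 4) (by omega)
  obtain ⟨X₂, hnum⟩ := num_ev D
  refine ⟨min c 1, lt_min hc one_pos, max X₁ X₂, ?_⟩
  intro X hX ι A u v hA hAbd hnp b hS z
  have hX1 : X₁ ≤ X := (le_max_left _ _).trans hX
  obtain ⟨n1, n2, n3, n4, n5, n6⟩ := hnum X ((le_max_right _ _).trans hX)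
  set L := Real.log X with hL
  set y := L / 10 with hy
  have hy0 : 0 ≤ y := by rw [hy]; linarith
  set P : ℕ := primorial ⌊y⌋₊ with hPdef
  have hPpos : 0 < P := primorial_pos _
  have hPr : (0 : ℝ) < P := by exact_mod_cast hPpos
  have hP1 : (1 : ℝ) ≤ P := by exact_mod_cast hPpos
  obtain ⟨b0, hb0, hb0'⟩ := exists_crt ⌊y⌋₊ b
  have hfloor : ∀ p : ℕ, p ≤ ⌊y⌋₊ ↔ (p : ℝ) ≤ y := fun p => Nat.le_floor_iff hy0
  have hLD : L ≤ L ^ (D + 4) := by
    calc L = L ^ 1 := (pow_one L).symm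
      _ ≤ L ^ (D + 4) := pow_le_pow_right₀ (by linarith) (by omega)
  have hdvdP : ∀ p : ℕ, p.Prime → (p : ℝ) ≤ y → p ∣ P := fun p hp hpy =>
    (hp.dvd_primorial_iff).2 ((hfloor p).2 hpy)
  have hndvdP : ∀ p : ℕ, p.Prime → L ^ (D + 4) < p → ¬ p ∣ P := by
    intro p hp hpX h
    have := (hfloor p).1 ((hp.dvd_primorial_iff).1 h)
    rw [hy] at this
    linarith
  have hinv : ∀ (p : ℕ) (a : ι), ∃ i : ℤ, p.Prime → ¬ (p : ℤ) ∣ u a * P → (p : ℤ) ∣ (u a * P) * i - 1 := by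
    intro p a
    by_cases h : p.Prime ∧ ¬ (p : ℤ) ∣ u a * P
    · obtain ⟨i, hi⟩ := inv_int h.1 h.2
      exact ⟨i, fun _ _ => hi⟩
    · exact ⟨0, fun h1 h2 => absurd ⟨h1, h2⟩ h⟩
  choose ip hip using hinv
  obtain ⟨S, hSdef⟩ : ∃ S : Finset ι, S = A.filter (fun a => ∀ p : ℕ, p.Prime → (p : ℝ) ≤ y →
      ¬ (p : ℤ) ∣ u a * (b p : ℤ) + v a) := ⟨_, rfl⟩
  rw [← hSdef] at hS
  have hSA : ∀ a ∈ S, a ∈ A := fun a ha => by
    rw [hSdef] at ha
    exact (mem_filter.1 ha).1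
  set T : ℝ := X ^ (1 / 100 : ℝ) with hT
  have hT0 : 0 ≤ T := Real.rpow_nonneg (by linarith) _
  -- the exceptional primes
  obtain ⟨B0, hB0⟩ : ∃ B0 : Finset ℕ, B0 = (S ×ˢ S).biUnion (fun x =>
    ((u x.1 * v x.2 - u x.2 * v x.1).natAbs.primeFactors).filter (fun p : ℕ => L ^ (D + 4) < p)) := ⟨_, rfl⟩
  obtain ⟨B1, hB1⟩ : ∃ B1 : Finset ℕ, B1 = S.biUnion (fun x =>
    ((u x).natAbs.primeFactors).filter (fun p : ℕ => L ^ (D + 4) < p)) := ⟨_, rfl⟩
  obtain ⟨B, hB⟩ : ∃ B : Finset ℕ, B = B0 ∪ B1 := ⟨_, rfl⟩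
  have hcS1 : (S.card : ℝ) ≤ L := by
    refine hS.trans ?_
    have : min c 1 ≤ 1 := min_le_right _ _
    nlinarith
  have hcS0 : (0:ℝ) ≤ S.card := Nat.cast_nonneg _
  have hLD1 : (1:ℝ) ≤ L ^ D := one_le_pow₀ (by linarith)
  have hBcard : 2 * (B.card : ℝ) ≤ L ^ (D + 4) := by
    have hone : ∀ x ∈ S ×ˢ S, ((((u x.1 * v x.2 - u x.2 * v x.1).natAbs.primeFactors).filter
        (fun p : ℕ => L ^ (D + 4) < p)).card : ℝ) ≤ 2 * L ^ D + 1 := by
      intro x hx
      rw [mem_product] at hx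
      apply large_le _ L D n2
      · obtain ⟨_, e1, e1'⟩ := hAbd _ (hSA _ hx.1)
        obtain ⟨_, e2, e2'⟩ := hAbd _ (hSA _ hx.2)
        push_cast
        have e5 := abs_sub (u x.1 * v x.2 : ℝ) (u x.2 * v x.1)
        rw [abs_mul, abs_mul] at e5
        have e6 := Real.exp_one_gt_d9
        have e7 := Real.exp_pos (L ^ D)
        have e8 : |(u x.1 : ℝ)| * |(v x.2 : ℝ)| ≤ Real.exp (L ^ D) * Real.exp (L ^ D) :=
          mul_le_mul e1 e2' (abs_nonneg _) e7.le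
        have e9 : |(u x.2 : ℝ)| * |(v x.1 : ℝ)| ≤ Real.exp (L ^ D) * Real.exp (L ^ D) :=
          mul_le_mul e2 e1' (abs_nonneg _) e7.le
        have e10 : Real.exp (2 * L ^ D + 1) = Real.exp (L ^ D) * Real.exp (L ^ D) * Real.exp 1 := by
          rw [← Real.exp_add, ← Real.exp_add]; congr 1; ring
        rw [e10]
        have e11 : 0 < Real.exp (L ^ D) * Real.exp (L ^ D) := by positivity
        nlinarith
      · positivity
    have h1 : (B0.card : ℝ) ≤ ∑ x ∈ S ×ˢ S, (2 * L ^ D + 1) := by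
      rw [hB0]
      calc (((S ×ˢ S).biUnion (fun x => ((u x.1 * v x.2 - u x.2 * v x.1).natAbs.primeFactors).filter
            (fun p : ℕ => L ^ (D + 4) < p))).card : ℝ) ≤
            ((∑ x ∈ S ×ˢ S, (((u x.1 * v x.2 - u x.2 * v x.1).natAbs.primeFactors).filter
            (fun p : ℕ => L ^ (D + 4) < p)).card : ℕ) : ℝ) := by
              exact_mod_cast card_biUnion_le
        _ = ∑ x ∈ S ×ˢ S, ((((u x.1 * v x.2 - u x.2 * v x.1).natAbs.primeFactors).filter
            (fun p : ℕ => L ^ (D + 4) < p)).card : ℝ) := by push_cast; rfl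
        _ ≤ _ := sum_le_sum hone
    rw [sum_const, nsmul_eq_mul, card_product] at h1
    push_cast at h1
    have h1' : (B1.card : ℝ) ≤ ∑ x ∈ S, L ^ D := by
      rw [hB1]
      calc ((S.biUnion (fun x => ((u x).natAbs.primeFactors).filter
            (fun p : ℕ => L ^ (D + 4) < p))).card : ℝ) ≤
            ((∑ x ∈ S, (((u x).natAbs.primeFactors).filter
            (fun p : ℕ => L ^ (D + 4) < p)).card : ℕ) : ℝ) := by
              exact_mod_cast card_biUnion_le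
        _ = ∑ x ∈ S, ((((u x).natAbs.primeFactors).filter
            (fun p : ℕ => L ^ (D + 4) < p)).card : ℝ) := by push_cast; rfl
        _ ≤ _ := sum_le_sum fun x hx => large_le _ L D n2 _ (hAbd _ (hSA _ hx)).2.1 (by positivity)
    rw [sum_const, nsmul_eq_mul] at h1'
    have h2 : (S.card : ℝ) * S.card * (2 * L ^ D + 1) ≤ L * L * (3 * L ^ D) := by
      apply mul_le_mul (mul_le_mul hcS1 hcS1 hcS0 (by linarith)) (by linarith) (by positivity)
        (by positivity)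
    have h2' : (S.card : ℝ) * L ^ D ≤ L * L ^ D := mul_le_mul_of_nonneg_right hcS1 (by positivity)
    have h3 : 2 * (L * L * (3 * L ^ D)) + 2 * (L * L ^ D) ≤ L ^ (D + 4) := by
      have : L ^ (D + 4) = (L * L) * (L * L * L ^ D) := by ring
      rw [this]
      have h4 : 0 ≤ L * L * L ^ D := by positivity
      have h5 : L * L ^ D ≤ L * L * L ^ D := by nlinarith
      nlinarith
    have h7 : (B.card : ℝ) ≤ (B0.card : ℝ) + (B1.card : ℝ) := by
      rw [hB]
      exact_mod_cast card_union_le _ _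
    linarith
  have hnd : ∀ p : ℕ, p.Prime → L ^ (D + 4) < p → p ∉ B → ∀ a ∈ S, ¬ (p : ℤ) ∣ u a * P := by
    intro p hp hp1 hpB a ha hd
    rcases (Nat.prime_iff_prime_int.1 hp).dvd_or_dvd hd with h | h
    · apply hpB
      rw [hB, hB1, mem_union]
      right
      rw [mem_biUnion]
      refine ⟨a, ha, ?_⟩
      rw [mem_filter, Nat.mem_primeFactors]
      exact ⟨⟨hp, Int.natCast_dvd.1 h, Int.natAbs_ne_zero.2 (hAbd _ (hSA _ ha)).1⟩, hp1⟩
    · exact hndvdP p hp hp1 (Int.natCast_dvd_natCast.1 h)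
  -- the set of admissible m
  set I : Finset ℤ := Ioc ⌊(z + X / 4) / P⌋ ⌊(z + X / 2) / P⌋ with hI
  set bad : Finset ℤ := I.filter (fun m : ℤ => ∃ a ∈ A, |((u a * ((b0 : ℤ) + (P : ℤ) * m) + v a : ℤ) : ℝ)| ≤ T) with hbad
  set 𝒜 : Finset ℤ := I.filter (fun m : ℤ => ¬ ∃ a ∈ A, |((u a * ((b0 : ℤ) + (P : ℤ) * m) + v a : ℤ) : ℝ)| ≤ T) with h𝒜
  have hbadcard : (bad.card : ℝ) ≤ L ^ 2 * (2 * T + 1) := by
    have h1 : bad ⊆ A.biUnion (fun a => I.filter (fun m : ℤ => |((u a * ((b0 : ℤ) + (P : ℤ) * m) + v a : ℤ) : ℝ)| ≤ T)) := by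
      intro m hm
      rw [hbad, mem_filter] at hm
      obtain ⟨h1, a, ha, h2⟩ := hm
      rw [mem_biUnion]
      exact ⟨a, ha, mem_filter.2 ⟨h1, h2⟩⟩
    have h2 : ∀ a ∈ A, ((I.filter (fun m : ℤ => |((u a * ((b0 : ℤ) + (P : ℤ) * m) + v a : ℤ) : ℝ)| ≤ T)).card : ℝ) ≤
        2 * T + 1 := by
      intro a ha
      have h3 : ((I.filter (fun m : ℤ => |((u a * ((b0 : ℤ) + (P : ℤ) * m) + v a : ℤ) : ℝ)| ≤ T)).card) ≤
          (Icc (-(⌊T⌋₊ : ℤ)) ⌊T⌋₊).card := by
        apply card_le_card_of_injOn (fun m => u a * ((b0 : ℤ) + P * m) + v a)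
        · intro m hm
          have hm' := (mem_filter.1 (mem_coe.1 hm)).2
          rw [abs_le] at hm'
          rw [mem_coe, mem_Icc]
          constructor
          · have e2 : -(u a * ((b0 : ℤ) + P * m) + v a) ≤ ⌊T⌋ := Int.le_floor.2 (by
              rw [Int.cast_neg]; linarith [hm'.1])
            have e3 : ((⌊T⌋₊ : ℕ) : ℤ) = ⌊T⌋ := Int.natCast_floor_eq_floor hT0
            show -(⌊T⌋₊ : ℤ) ≤ u a * ((b0 : ℤ) + P * m) + v a
            linarith
          · have e2 : (u a * ((b0 : ℤ) + P * m) + v a) ≤ ⌊T⌋ := Int.le_floor.2 hm'.2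
            have e3 : ((⌊T⌋₊ : ℕ) : ℤ) = ⌊T⌋ := Int.natCast_floor_eq_floor hT0
            show u a * ((b0 : ℤ) + P * m) + v a ≤ (⌊T⌋₊ : ℤ)
            linarith
        · intro m _ m' _ h
          have h5 : (P : ℤ) * m = P * m' := by
            have h8 : u a * ((b0 : ℤ) + P * m) + v a = u a * ((b0 : ℤ) + P * m') + v a := h
            have h9 : u a ≠ 0 := (hAbd a ha).1
            have h10 : u a * ((b0 : ℤ) + P * m) = u a * ((b0 : ℤ) + P * m') := by linarith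
            have h11 := mul_left_cancel₀ h9 h10
            linarith
          have h6 : (P : ℤ) ≠ 0 := by exact_mod_cast hPpos.ne'
          exact mul_left_cancel₀ h6 h5
      have h4 : (Icc (-(⌊T⌋₊ : ℤ)) ⌊T⌋₊).card = 2 * ⌊T⌋₊ + 1 := by
        rw [Int.card_Icc]
        omega
      rw [h4] at h3
      have h5 : ((I.filter (fun m : ℤ => |((u a * ((b0 : ℤ) + (P : ℤ) * m) + v a : ℤ) : ℝ)| ≤ T)).card : ℝ) ≤
          2 * (⌊T⌋₊ : ℝ) + 1 := by exact_mod_cast h3
      have := Nat.floor_le hT0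
      linarith
    calc (bad.card : ℝ) ≤ ((∑ a ∈ A, (I.filter (fun m : ℤ => |((u a * ((b0 : ℤ) + (P : ℤ) * m) + v a : ℤ) : ℝ)| ≤ T)).card : ℕ) : ℝ) := by
          exact_mod_cast (card_le_card h1).trans card_biUnion_le
      _ = ∑ a ∈ A, ((I.filter (fun m : ℤ => |((u a * ((b0 : ℤ) + (P : ℤ) * m) + v a : ℤ) : ℝ)| ≤ T)).card : ℝ) := by
          push_cast; rfl
      _ ≤ ∑ a ∈ A, (2 * T + 1) := sum_le_sum h2
      _ = A.card * (2 * T + 1) := by rw [sum_const, nsmul_eq_mul]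
      _ ≤ L ^ 2 * (2 * T + 1) := mul_le_mul_of_nonneg_right hA (by linarith)
  have hlt : (z + X / 4) / P ≤ (z + X / 2) / P := by
    apply div_le_div_of_nonneg_right _ hPr.le
    linarith
  have hN : X ^ (1 / 2 : ℝ) ≤ X / (4 * P) := by
    rw [le_div_iff₀ (by positivity)]
    calc X ^ (1 / 2 : ℝ) * (4 * P) ≤ X ^ (1 / 2 : ℝ) * X ^ (1 / 2 : ℝ) := by gcongr
      _ = X := by
        rw [← Real.rpow_add (by linarith)]
        norm_num
  obtain ⟨m, hmA, hm⟩ := hcov X hX1 B hBcard S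
    (by
      rw [Fintype.card_coe]
      refine hS.trans ?_
      have : min c 1 ≤ c := min_le_left _ _
      nlinarith)
    (fun p x => -(u x.1 * b0 + v x.1) * ip p x.1) (by
      intro p hp hp1 _ hpB k l hkl hdvd
      have h1 := hip p k.1 hp (hnd p hp hp1 hpB k.1 k.2)
      have h1' := hip p l.1 hp (hnd p hp hp1 hpB l.1 l.2)
      have h2 : (p : ℤ) ∣ P * (u k.1 * v l.1 - u l.1 * v k.1) := by
        have h3 := hdvd.mul_left ((u k.1 * P) * (u l.1 * P))
        have h4 := h1.mul_left ((u k.1 * b0 + v k.1) * (u l.1 * P))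
        have h4' := h1'.mul_left ((u l.1 * b0 + v l.1) * (u k.1 * P))
        have h5 := dvd_sub (dvd_add h3 h4) h4'
        refine h5.trans (dvd_of_eq ?_)
        ring
      rcases (Nat.prime_iff_prime_int.1 hp).dvd_or_dvd h2 with h2 | h2
      · exact hndvdP p hp hp1 (Int.natCast_dvd_natCast.1 h2)
      apply hpB
      rw [hB, hB0, mem_union]
      left
      rw [mem_biUnion]
      refine ⟨(k.1, l.1), mem_product.2 ⟨k.2, l.2⟩, ?_⟩
      rw [mem_filter, Nat.mem_primeFactors]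
      refine ⟨⟨hp, Int.natCast_dvd.1 h2, ?_⟩, hp1⟩
      rw [Int.natAbs_ne_zero, sub_ne_zero]
      exact hnp _ (hSA _ k.2) _ (hSA _ l.2) (fun h => hkl (Subtype.ext h)))
    𝒜 (X / (4 * P)) (L ^ 2 * (2 * T + 1) + 2) hN (by positivity) n5 (by
      intro q hq hq4 _ r
      have hq0 : 0 < q := Nat.pos_of_ne_zero hq.ne_zero
      have hq1 : (1 : ℝ) ≤ q := by exact_mod_cast hq0
      have h1 := count_Ioc ⌊(z + X / 4) / P⌋ ⌊(z + X / 2) / P⌋ (Int.floor_le_floor hlt) q hq0 r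
      have e1 := Int.floor_le ((z + X / 4) / P)
      have e2 := Int.lt_floor_add_one ((z + X / 4) / P)
      have e3 := Int.floor_le ((z + X / 2) / P)
      have e4 := Int.lt_floor_add_one ((z + X / 2) / P)
      have e5 : (z + X / 2) / P - (z + X / 4) / P = X / (4 * P) := by
        field_simp
        ring
      have h2 : |((⌊(z + X / 2) / P⌋ : ℝ) - ⌊(z + X / 4) / P⌋) / q - X / (4 * P) / q| ≤ 1 := by
        rw [← sub_div, abs_div, abs_of_pos (by linarith : (0 : ℝ) < q), div_le_one (by linarith)]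
        refine le_trans ?_ hq1
        rw [abs_le]
        constructor <;> linarith
      have h3 : |((((I.filter (fun x => (q : ℤ) ∣ x - r)).card : ℕ) : ℝ)) - X / (4 * P) / q| ≤ 2 := by
        calc _ = |((((Ioc ⌊(z + X / 4) / P⌋ ⌊(z + X / 2) / P⌋).filter
                (fun x => (q : ℤ) ∣ x - r)).card : ℕ) : ℝ) -
                ((⌊(z + X / 2) / P⌋ : ℝ) - ⌊(z + X / 4) / P⌋) / q +
                (((⌊(z + X / 2) / P⌋ : ℝ) - ⌊(z + X / 4) / P⌋) / q - X / (4 * P) / q)| := by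
              congr 1
              ring
          _ ≤ _ := abs_add_le _ _
          _ ≤ 2 := by linarith
      have h4 : (𝒜.filter (fun x => (q : ℤ) ∣ x - r)).card +
          (bad.filter (fun x => (q : ℤ) ∣ x - r)).card = (I.filter (fun x => (q : ℤ) ∣ x - r)).card := by
        exact card_split I _ _
      have h5 : ((bad.filter (fun x => (q : ℤ) ∣ x - r)).card : ℝ) ≤ L ^ 2 * (2 * T + 1) := by
        refine le_trans ?_ hbadcard
        exact_mod_cast card_le_card (filter_subset _ _)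
      have h6 : ((𝒜.filter (fun x => (q : ℤ) ∣ x - r)).card : ℝ) +
          ((bad.filter (fun x => (q : ℤ) ∣ x - r)).card : ℝ) =
          ((I.filter (fun x => (q : ℤ) ∣ x - r)).card : ℝ) := by exact_mod_cast h4
      have h7 : (0:ℝ) ≤ ((bad.filter (fun x => (q : ℤ) ∣ x - r)).card : ℝ) := Nat.cast_nonneg _
      rw [abs_le] at h3 ⊢
      constructor <;> linarith [h3.1, h3.2])
  rw [h𝒜, mem_filter, hI, mem_Ioc] at hmA
  obtain ⟨⟨hmA1, hmA2⟩, hmA3⟩ := hmA
  have hm1 : (z + X / 4) / P < m := by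
    have := Int.lt_floor_add_one ((z + X / 4) / P)
    have h2 : (⌊(z + X / 4) / P⌋ : ℝ) + 1 ≤ m := by exact_mod_cast hmA1
    linarith
  have hm2 : (m : ℝ) ≤ (z + X / 2) / P := by
    have := Int.floor_le ((z + X / 2) / P)
    have h2 : (m : ℝ) ≤ (⌊(z + X / 2) / P⌋ : ℝ) := by exact_mod_cast hmA2
    linarith
  rw [div_lt_iff₀ hPr] at hm1
  rw [le_div_iff₀ hPr] at hm2
  have hb0r : (0 : ℝ) ≤ b0 := by positivity
  have hb0P : (b0 : ℝ) ≤ P := by exact_mod_cast hb0.le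
  have hsmall : ∀ p : ℕ, p.Prime → (p : ℝ) ≤ y → (p : ℤ) ∣ ((b0 : ℤ) + P * m) - b p := by
    intro p hp hpy
    have h1 : (p : ℤ) ∣ (b0 : ℤ) - b p := by
      have h2 := hb0' p hp ((hfloor p).2 hpy)
      exact (Nat.modEq_iff_dvd.1 h2.symm)
    have h3 : (p : ℤ) ∣ (P : ℤ) := Int.natCast_dvd_natCast.2 (hdvdP p hp hpy)
    have h4 := dvd_add h1 (h3.mul_right m)
    refine h4.trans (dvd_of_eq ?_)
    ring
  refine ⟨(b0 : ℤ) + P * m, ?_, ?_, hsmall, ?_⟩
  · push_cast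
    linarith
  · push_cast
    linarith
  · intro a ha hpr
    have hbig : T < |((u a * ((b0 : ℤ) + P * m) + v a : ℤ) : ℝ)| := by
      by_contra hcon
      push Not at hcon
      exact hmA3 ⟨a, ha, hcon⟩
    have hcomp : ∀ p : ℕ, p.Prime → (p : ℝ) ≤ T → ¬ (p : ℤ) ∣ u a * ((b0 : ℤ) + P * m) + v a := by
      intro p hp hpT h
      have h1 := Int.natCast_dvd.1 h
      have h2 : ((u a * ((b0 : ℤ) + P * m) + v a).natAbs).Prime := Int.prime_iff_natAbs_prime.1 hpr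
      have h3 := (Nat.prime_dvd_prime_iff_eq hp h2).1 h1
      have h4 : ((((u a * ((b0 : ℤ) + P * m) + v a).natAbs : ℕ)) : ℝ) = |((u a * ((b0 : ℤ) + P * m) + v a : ℤ) : ℝ)| := by
        rw [Nat.cast_natAbs]
        push_cast
        rfl
      rw [← h4, ← h3] at hbig
      linarith
    by_cases hkS : a ∈ S
    · obtain ⟨p, hp, hp1, hp2, hpB, hp3⟩ := hm ⟨a, hkS⟩
      apply hcomp p hp hp2
      have h1 := hip p a hp (hnd p hp hp1 hpB a hkS)
      have h3 := hp3.mul_left (u a * P)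
      have h4 := h1.mul_left (u a * b0 + v a)
      have h5 := dvd_sub h3 h4
      refine h5.trans (dvd_of_eq ?_)
      push_cast
      ring
    · have hkS' : ¬ ∀ p : ℕ, p.Prime → (p : ℝ) ≤ y → ¬ (p : ℤ) ∣ u a * (b p : ℤ) + v a := fun h =>
        hkS (by
          rw [hSdef, mem_filter]
          exact ⟨ha, h⟩)
      push Not at hkS'
      obtain ⟨p, hp, hpy, hkp⟩ := hkS'
      apply hcomp p hp (by rw [hy] at hpy; linarith)
      have h1 := (hsmall p hp hpy).mul_left (u a)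
      have h4 := dvd_add h1 hkp
      refine h4.trans (dvd_of_eq ?_)
      ring

end Pool.Agent.N893.FR
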