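import Mathlib
import Pool.Agent.N893.MC.Surv
import Pool.Agent.H646.Moment

set_option autoImplicit false
set_option maxHeartbeats 4000000

/-! # Pairs `(d, l)` for which `l ^ n - (± d) ^ n` has few prime factors -/

namespace Pool.Agent.N893.FR

open Finset Filter Pool.Agent.H646 Pool.Agent.H646.Sv1M Pool.Agent.N893.MC

open scoped Classical

/-- `l` is not removed by the special classes. -/
def Okp (n W : ℕ) (y : ℝ) (S : Finset ℕ) (c l : ℤ) : Prop :=
  ∀ p : ℕ, p.Prime → ¬ p ∣ W → (p : ℝ) ≤ y → p ∉ S → ¬ (p : ℤ) ∣ l ^ n - c ^ n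

theorem card_Zr_dvd (p n : ℕ) (hp : p.Prime) (hn : 1 ≤ n) (c : ℤ) (hc : (p : ℤ) ∣ c) : (Zr p n c).card = 1 := by
  rw [card_eq_one]
  refine ⟨0, ?_⟩
  ext s
  rw [mem_Zr, mem_singleton]
  have hc' : (p : ℤ) ∣ c ^ n := dvd_pow hc (by omega)
  constructor
  · rintro ⟨h1, h2⟩
    have h3 : (p : ℤ) ∣ (s : ℤ) ^ n := (dvd_sub_right hc').1 h2
    have h4 := (Nat.prime_iff_prime_int.1 hp).dvd_of_dvd_pow h3
    have h5 := Int.natCast_dvd_natCast.1 h4
    exact Nat.eq_zero_of_dvd_of_lt h5 h1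
  · rintro rfl
    refine ⟨hp.pos, ?_⟩
    rw [Nat.cast_zero, zero_pow (by omega), sub_zero]
    exact hc'

theorem Ecl_sys' (n : ℕ) (hn : 1 ≤ n) (S : Finset ℕ) (c : ℤ) (K w : ℕ) (hK : n ≤ K) :
    Sys K w (Ecl n S c) := by
  have hκn : kap n ≤ n := Nat.le_of_dvd hn (kap_dvd n)
  have h : ∀ p : ℕ, p.Prime → ∀ k : ℕ, 1 ≤ k → k ≤ n → 1 ≤ (Zr p k c).card ∧ (Zr p k c).card ≤ n := by
    intro p hp k hk hkn
    by_cases hc : (p : ℤ) ∣ c
    · rw [card_Zr_dvd p k hp hk c hc]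
      exact ⟨le_rfl, hn⟩
    · exact ⟨(Zr_le p k hp hk c hc).1, (Zr_le p k hp hk c hc).2.trans hkn⟩
  refine ⟨fun p hp => ?_, fun p hp => ?_, fun p hp => ?_⟩
  · unfold Ecl
    split_ifs
    · exact filter_subset _ _
    · exact filter_subset _ _
  · have hpp := (PR_prime' hp).1
    unfold Ecl
    split_ifs
    · exact (h p hpp _ (kap_pos n) hκn).1
    · exact (h p hpp _ hn le_rfl).1
  · have hpp := (PR_prime' hp).1
    unfold Ecl
    split_ifs
    · exact (h p hpp _ (kap_pos n) hκn).2.trans hK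
    · exact (h p hpp _ hn le_rfl).2.trans hK

theorem card_Ecl_ge (n : ℕ) (hn : 1 ≤ n) (S : Finset ℕ) (c : ℤ) (p : ℕ) (hp : p.Prime) :
    ((Ecl n S 1 p).card : ℝ) - (if (p : ℤ) ∣ c then ((n : ℝ) - 1) else 0) ≤ ((Ecl n S c p).card : ℝ) := by
  have hκn : kap n ≤ n := Nat.le_of_dvd hn (kap_dvd n)
  have h1 := card_Ecl n hn S 1 (Or.inl rfl) p hp
  have hle : (Ecl n S 1 p).card ≤ n := by
    rw [h1]
    split_ifs
    · exact (Nat.gcd_le_right _ (kap_pos n)).trans hκn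
    · exact Nat.gcd_le_right _ hn
  by_cases hc : (p : ℤ) ∣ c
  · rw [if_pos hc]
    have h2 : (Ecl n S c p).card = 1 := by
      unfold Ecl
      split_ifs
      · exact card_Zr_dvd p _ hp (kap_pos n) c hc
      · exact card_Zr_dvd p _ hp hn c hc
    rw [h2]
    have h3 : ((Ecl n S 1 p).card : ℝ) ≤ n := by exact_mod_cast hle
    push_cast
    linarith
  · rw [if_neg hc, h1]
    have h2 : (Ecl n S c p).card = if p ∈ S then (p - 1).gcd (kap n) else (p - 1).gcd n := by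
      unfold Ecl
      split_ifs
      · exact card_Zr p _ hp (kap_pos n) c hc
      · exact card_Zr p _ hp hn c hc
    rw [h2]
    linarith

theorem exp_rat (d : ℕ) (hd : 1 ≤ d) (k : ℕ) :
    Real.exp (k * ∑ p ∈ d.primeFactors, 1 / (p : ℝ)) ≤ rat d ^ k := by
  have h1 : Real.exp (∑ p ∈ d.primeFactors, 1 / (p : ℝ)) ≤ rat d := by
    unfold rat
    have hφ : (0 : ℝ) < Nat.totient d := by exact_mod_cast Nat.totient_pos.2 hd
    have h2 : (Nat.totient d : ℝ) = d * ∏ p ∈ d.primeFactors, (1 - (p : ℝ)⁻¹) := by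
      have := Nat.totient_eq_mul_prod_factors d
      have h3 : ((Nat.totient d : ℚ) : ℝ) = ((d * ∏ p ∈ d.primeFactors, (1 - (p : ℚ)⁻¹) : ℚ) : ℝ) := by rw [this]
      push_cast at h3
      exact h3
    rw [le_div_iff₀ hφ, h2]
    have h3 : ∏ p ∈ d.primeFactors, (1 - (p : ℝ)⁻¹) ≤ Real.exp (-∑ p ∈ d.primeFactors, 1 / (p : ℝ)) := by
      rw [← sum_neg_distrib, Real.exp_sum]
      apply Finset.prod_le_prod
      · intro p hp
        have hp1 := (Nat.prime_of_mem_primeFactors hp).one_le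
        have hp2 : (1 : ℝ) ≤ p := by exact_mod_cast hp1
        rw [sub_nonneg]
        exact inv_le_one_of_one_le₀ hp2
      · intro p _
        have := Real.add_one_le_exp (-(1 / (p : ℝ)))
        rw [one_div] at this ⊢
        linarith
    have h4 : Real.exp (∑ p ∈ d.primeFactors, 1 / (p : ℝ)) * Real.exp (-∑ p ∈ d.primeFactors, 1 / (p : ℝ)) = 1 := by
      rw [← Real.exp_add, add_neg_cancel, Real.exp_zero]
    have hd0 : (0 : ℝ) ≤ d := Nat.cast_nonneg _
    have h5 := Real.exp_pos (∑ p ∈ d.primeFactors, 1 / (p : ℝ))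
    calc Real.exp (∑ p ∈ d.primeFactors, 1 / (p : ℝ)) * (d * ∏ p ∈ d.primeFactors, (1 - (p : ℝ)⁻¹))
        ≤ Real.exp (∑ p ∈ d.primeFactors, 1 / (p : ℝ)) * (d * Real.exp (-∑ p ∈ d.primeFactors, 1 / (p : ℝ))) := by gcongr
      _ = d * (Real.exp (∑ p ∈ d.primeFactors, 1 / (p : ℝ)) * Real.exp (-∑ p ∈ d.primeFactors, 1 / (p : ℝ))) := by ring
      _ = d := by rw [h4, mul_one]
  rw [Real.exp_nat_mul]
  exact pow_le_pow_left₀ (Real.exp_pos _).le h1 k

/-- lower bound for the sum of the densities, fixed `d` -/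
theorem sum_Ecl_d (n : ℕ) (hn : 1 ≤ n) (S : Finset ℕ) (ε : ℤ) (hε : ε = 1 ∨ ε = -1) (K w : ℕ) (d : ℕ) (hd : 1 ≤ d) :
    ∑ p ∈ PR K w, ((Ecl n S 1 p).card : ℝ) / p - ((n - 1 : ℕ) : ℝ) * ∑ p ∈ d.primeFactors, 1 / (p : ℝ) ≤
      ∑ p ∈ PR K w, ((Ecl n S (ε * d) p).card : ℝ) / p := by
  have hiff : ∀ p : ℕ, (p : ℤ) ∣ ε * d ↔ p ∣ d := by
    intro p
    rw [← Int.natCast_dvd_natCast]
    rcases hε with rfl | rfl
    · rw [one_mul]
    · rw [neg_one_mul, dvd_neg]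
  have h1 : ∑ p ∈ PR K w, ((Ecl n S 1 p).card : ℝ) / p -
      ∑ p ∈ PR K w, (if p ∣ d then ((n : ℝ) - 1) / p else 0) ≤
      ∑ p ∈ PR K w, ((Ecl n S (ε * d) p).card : ℝ) / p := by
    rw [← sum_sub_distrib]
    apply sum_le_sum
    intro p hp
    have hpp := (PR_prime' hp).1
    have h2 := card_Ecl_ge n hn S (ε * d) p hpp
    have hp0 : (0 : ℝ) < p := by exact_mod_cast hpp.pos
    have h3 : ((Ecl n S 1 p).card : ℝ) / p - (if p ∣ d then ((n : ℝ) - 1) / p else 0) =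
        (((Ecl n S 1 p).card : ℝ) - (if (p : ℤ) ∣ ε * d then ((n : ℝ) - 1) else 0)) / p := by
      by_cases h : p ∣ d
      · rw [if_pos h, if_pos ((hiff p).2 h)]; ring
      · rw [if_neg h, if_neg (fun h' => h ((hiff p).1 h'))]; ring
    rw [h3]
    exact div_le_div_of_nonneg_right h2 hp0.le
  have h4 : ∑ p ∈ PR K w, (if p ∣ d then ((n : ℝ) - 1) / p else 0) ≤
      ((n - 1 : ℕ) : ℝ) * ∑ p ∈ d.primeFactors, 1 / (p : ℝ) := by
    rw [← sum_filter, mul_sum, Nat.cast_sub hn, Nat.cast_one]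
    have hn0 : (0 : ℝ) ≤ (n : ℝ) - 1 := by
      have : (1 : ℝ) ≤ n := by exact_mod_cast hn
      linarith
    calc ∑ p ∈ (PR K w).filter (fun p => p ∣ d), ((n : ℝ) - 1) / p
        = ∑ p ∈ (PR K w).filter (fun p => p ∣ d), ((n : ℝ) - 1) * (1 / p) := by
          apply sum_congr rfl; intro p _; ring
      _ ≤ ∑ p ∈ d.primeFactors, ((n : ℝ) - 1) * (1 / p) := by
          apply sum_le_sum_of_subset_of_nonneg
          · intro p hp
            rw [mem_filter] at hp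
            exact Nat.mem_primeFactors.2 ⟨(PR_prime' hp.1).1, hp.2, by omega⟩
          · intro p _ _
            positivity
  linarith

theorem mod_mem_Zr' (p k : ℕ) (c : ℤ) (x : ℕ) (h : x % p ∈ Zr p k c) : (p : ℤ) ∣ (x : ℤ) ^ k - c ^ k := by
  rw [mem_Zr] at h
  have h1 := h.2
  have h2 : (p : ℤ) ∣ (x : ℤ) - ((x % p : ℕ) : ℤ) := by
    rw [Int.natCast_mod]; exact Int.dvd_self_sub_emod
  have h3 : (p : ℤ) ∣ (x : ℤ) ^ k - ((x % p : ℕ) : ℤ) ^ k := h2.trans (sub_dvd_pow_sub_pow _ _ k)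
  have := dvd_sub h3 h1
  refine this.trans (dvd_of_eq ?_)
  ring

theorem Rr_kap' (n : ℕ) (p : ℕ) (hp : p.Prime) (l c : ℤ) (h : (p : ℤ) ∣ l ^ (kap n) - c ^ (kap n)) :
    ∃ r ∈ Rr n, (p : ℤ) ∣ l - r * c := by
  unfold kap at h
  unfold Rr
  split_ifs at h ⊢ with hn
  · have h1 : l ^ 2 - c ^ 2 = (l - 1 * c) * (l - -1 * c) := by ring
    rw [h1] at h
    rcases (Nat.prime_iff_prime_int.1 hp).dvd_or_dvd h with h | h
    · exact ⟨1, by simp, h⟩
    · exact ⟨-1, by simp, h⟩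
  · exact ⟨1, by simp, by simpa using h⟩

/-- fixed `d` -/
theorem cnt_d (n : ℕ) (W : ℕ) (hW : 1 ≤ W) (y : ℝ) (S : Finset ℕ)
    (ε : ℤ) (hε : ε = 1 ∨ ε = -1) (d Q : ℕ) (hd : 1 ≤ d) (hdQ : d ≤ Q) (K w : ℕ) (hKW : W ≤ K) (hwy : (w : ℝ) ≤ y)
    (Sm : ℕ → Prop) (hdich : ∀ m : ℕ, 1 ≤ m → m ≤ 2 * Q →
      (∀ p : ℕ, p.Prime → p ∣ m → (y < p ∨ p ∈ S ∨ p ∣ W)) → Sm m ∨
        (∀ p : ℕ, p.Prime → p ∣ m → (y < p ∨ p ∣ W))) :
    ((Finset.Icc 1 Q).filter (fun l : ℕ => Okp n W y S (ε * d) l)).card ≤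
      1 + 4 * ((Finset.Icc 1 (2 * Q)).filter Sm).card +
        ((Icc 1 Q).filter (fun l => ∀ p ∈ PR K w, l % p ∉ Ecl n S (ε * d) p)).card := by
  obtain ⟨c, hc⟩ : ∃ c : ℤ, c = ε * d := ⟨_, rfl⟩
  rw [← hc]
  have hcabs : |c| = (d : ℤ) := by
    rw [hc, abs_mul]
    rcases hε with rfl | rfl
    · rw [abs_one, one_mul]; exact abs_of_nonneg (Nat.cast_nonneg _)
    · rw [abs_neg, abs_one, one_mul]; exact abs_of_nonneg (Nat.cast_nonneg _)
  have hrc : ∀ r ∈ Rr n, |r * c| = (d : ℤ) := by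
    intro r hr
    rw [abs_mul, hcabs]
    rcases Rr_abs n r hr with rfl | rfl
    · rw [abs_one, one_mul]
    · rw [abs_neg, abs_one, one_mul]
  have hsub : (Finset.Icc 1 Q).filter (fun l : ℕ => Okp n W y S c l) ⊆
      ({d} ∪ (Rr n).biUnion (fun r => ((Finset.Icc 1 (2 * Q)).filter Sm).image (fun m : ℕ => (r * c + m).toNat) ∪
        ((Finset.Icc 1 (2 * Q)).filter Sm).image (fun m : ℕ => (r * c - m).toNat))) ∪
      (Icc 1 Q).filter (fun l => ∀ p ∈ PR K w, l % p ∉ Ecl n S c p) := by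
    intro l hl
    rw [mem_filter, mem_Icc] at hl
    obtain ⟨⟨hl1, hlQ⟩, hok⟩ := hl
    by_cases hld : l = d
    · rw [mem_union, mem_union]
      left; left
      rw [hld]; exact mem_singleton_self _
    have hm0 : ∀ r ∈ Rr n, 1 ≤ ((l : ℤ) - r * c).natAbs := by
      intro r hr
      rw [Nat.one_le_iff_ne_zero, Int.natAbs_ne_zero]
      intro h
      have h1 : (l : ℤ) = r * c := by linarith
      have h2 := hrc r hr
      rw [← h1, abs_of_nonneg (Nat.cast_nonneg _)] at h2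
      exact hld (by exact_mod_cast h2)
    have hle : ∀ r ∈ Rr n, ((l : ℤ) - r * c).natAbs ≤ 2 * Q := by
      intro r hr
      have h2 := hrc r hr
      have h3 := abs_le.1 h2.le
      omega
    have hdv : ∀ (r : ℤ) (p : ℕ), p ∣ ((l : ℤ) - r * c).natAbs ↔ (p : ℤ) ∣ (l : ℤ) - r * c := fun r p =>
      Int.natCast_dvd.symm
    have hfac : ∀ r ∈ Rr n, ∀ p : ℕ, p.Prime → p ∣ ((l : ℤ) - r * c).natAbs → (y < p ∨ p ∈ S ∨ p ∣ W) := by
      intro r hr p hp hd'
      by_contra hcon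
      push Not at hcon
      obtain ⟨h3, h4, h5⟩ := hcon
      apply hok p hp h5 h3 h4
      have h6 := ((hdv r p).1 hd').trans (sub_dvd_pow_sub_pow (l : ℤ) (r * c) n)
      rwa [mul_pow, Rr_pow n r hr, one_mul] at h6
    rw [mem_union]
    by_cases hall : ∃ r ∈ Rr n, Sm ((l : ℤ) - r * c).natAbs
    · left
      obtain ⟨r, hr, hs⟩ := hall
      rw [mem_union]
      right
      rw [mem_biUnion]
      refine ⟨r, hr, ?_⟩
      rw [mem_union, mem_image, mem_image]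
      rcases Int.natAbs_eq ((l : ℤ) - r * c) with h | h
      · left
        refine ⟨_, mem_filter.2 ⟨mem_Icc.2 ⟨hm0 r hr, hle r hr⟩, hs⟩, ?_⟩
        rw [← h]
        have : r * c + ((l : ℤ) - r * c) = l := by ring
        rw [this, Int.toNat_natCast]
      · right
        refine ⟨_, mem_filter.2 ⟨mem_Icc.2 ⟨hm0 r hr, hle r hr⟩, hs⟩, ?_⟩
        have : r * c - (((l : ℤ) - r * c).natAbs : ℤ) = l := by linarith
        rw [this, Int.toNat_natCast]
    · right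
      push Not at hall
      rw [mem_filter, mem_Icc]
      refine ⟨⟨hl1, hlQ⟩, fun p hpPR hmem => ?_⟩
      obtain ⟨hp, hKp, hpw⟩ := PR_prime' hpPR
      have hpy : (p : ℝ) ≤ y := by
        have : (p : ℝ) ≤ w := by exact_mod_cast hpw
        linarith
      have hpW : ¬ p ∣ W := by
        intro h
        have := Nat.le_of_dvd hW h
        omega
      unfold Ecl at hmem
      split_ifs at hmem with hpS
      · have h7 := mod_mem_Zr' p _ c _ hmem
        obtain ⟨r, hr, hrd⟩ := Rr_kap' n p hp _ _ h7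
        rcases hdich _ (hm0 r hr) (hle r hr) (hfac r hr) with h | h
        · exact hall r hr h
        · rcases h p hp ((hdv r p).2 hrd) with h' | h'
          · linarith
          · exact hpW h'
      · have h7 := mod_mem_Zr' p _ c _ hmem
        exact hok p hp hpW hpy hpS h7
  refine (card_le_card hsub).trans ((card_union_le _ _).trans ?_)
  refine Nat.add_le_add_right ?_ _
  refine (card_union_le _ _).trans ?_
  rw [card_singleton]
  refine Nat.add_le_add_left ?_ _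
  refine card_biUnion_le.trans ?_
  calc ∑ r ∈ Rr n, (((Finset.Icc 1 (2 * Q)).filter Sm).image (fun m : ℕ => (r * c + m).toNat) ∪
        ((Finset.Icc 1 (2 * Q)).filter Sm).image (fun m : ℕ => (r * c - m).toNat)).card
      ≤ ∑ r ∈ Rr n, 2 * ((Finset.Icc 1 (2 * Q)).filter Sm).card := by
        apply sum_le_sum
        intro r _
        refine (card_union_le _ _).trans ?_
        have h1 : (((Finset.Icc 1 (2 * Q)).filter Sm).image (fun m : ℕ => (r * c + m).toNat)).card ≤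
          ((Finset.Icc 1 (2 * Q)).filter Sm).card := card_image_le
        have h2 : (((Finset.Icc 1 (2 * Q)).filter Sm).image (fun m : ℕ => (r * c - m).toNat)).card ≤
          ((Finset.Icc 1 (2 * Q)).filter Sm).card := card_image_le
        omega
    _ = (Rr n).card * (2 * ((Finset.Icc 1 (2 * Q)).filter Sm).card) := by rw [sum_const, smul_eq_mul]
    _ ≤ 2 * (2 * ((Finset.Icc 1 (2 * Q)).filter Sm).card) := Nat.mul_le_mul_right _ (Rr_card n)
    _ = _ := by ring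

end Pool.Agent.N893.FR
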