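import Mathlib
import Pool.Agent.N893.FR.Cnt
import Pool.Agent.N893.RK.Greedy

set_option autoImplicit false
set_option maxHeartbeats 4000000

/-! # The greedy choice for pairs, smooth numbers up to `√ y`, the sum over `d` -/

namespace Pool.Agent.N893.FR

open Finset Filter Pool.Agent.H646 Pool.Agent.H646.Sv1M Pool.Agent.H318R2.Cr Pool.Agent.H398R2.RK
  Pool.Agent.N893.RK Pool.Agent.N893.MC

open scoped Classical

/-- Greedy choice for the primes of `S`: the proportion of the classes which remove `t` is `g p / p`. -/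
theorem greedy_gi {ι : Type} (S : Finset ℕ) (v₀ : ℝ) (hv₀ : 0 < v₀) (hS : ∀ p ∈ S, p.Prime ∧ v₀ < (p : ℝ))
    (g : ℕ → ℕ) (n : ℕ) (hg : ∀ p ∈ S, g p ≤ n)
    (R : Finset ι) (K : ℕ → ℕ → ι → Prop) (N : ι → ℤ)
    (hK : ∀ p ∈ S, ∀ t ∈ R, ¬ (p : ℤ) ∣ N t →
      (((range p).filter (fun s => ¬ K p s t)).card : ℝ) ≤ p - g p)
    (hN : ∀ t ∈ R, N t ≠ 0 → 2 * n * Real.log (N t).natAbs ≤ v₀) :
    ∃ s : ℕ → ℕ, ((R.filter (fun t => ∀ p ∈ S, ¬ K p (s p) t)).card : ℝ) ≤
      R.card * (3 * Real.exp (-∑ p ∈ S, (g p : ℝ) / p)) + (R.filter (fun t => N t = 0)).card := by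
  set w : ℕ → ι → ℝ := fun p t => if (p : ℤ) ∣ N t then 1 else Real.exp (-((g p : ℝ) / p)) with hw
  have hw0 : ∀ p ∈ S, ∀ t, 0 ≤ w p t := by
    intro p hp t
    simp only [hw]
    split_ifs
    · norm_num
    · exact (Real.exp_pos _).le
  obtain ⟨s, _, hsc⟩ := greedy_abs S K (fun p => p) w (fun p hp => (hS p hp).1.pos) hw0 R (by
      intro p hp t ht
      by_cases hNt : (p : ℤ) ∣ N t
      · simp only [hw, if_pos hNt, one_mul]
        have := card_filter_le (range p) (fun c : ℕ => ¬ K p c t)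
        rw [card_range] at this
        exact_mod_cast this
      · simp only [hw, if_neg hNt]
        have h1 := hK p hp t ht hNt
        have hp0 : (0 : ℝ) < p := by exact_mod_cast (hS p hp).1.pos
        have h2 := Real.add_one_le_exp (-((g p : ℝ) / p))
        have h3 : (p : ℝ) - g p = (-((g p : ℝ) / p) + 1) * p := by field_simp; ring
        have h4 : (p : ℝ) - g p ≤ Real.exp (-((g p : ℝ) / p)) * p := by
          rw [h3]; exact mul_le_mul_of_nonneg_right h2 hp0.le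
        have h5 := h1.trans h4
        convert h5)
  refine ⟨s, ?_⟩
  have hsc' : ((R.filter (fun t => ∀ p ∈ S, ¬ K p (s p) t)).card : ℝ) ≤ ∑ t ∈ R, ∏ p ∈ S, w p t := by convert hsc
  refine hsc'.trans ?_
  have hterm : ∀ t ∈ R, N t ≠ 0 → ∏ p ∈ S, w p t ≤ 3 * Real.exp (-∑ p ∈ S, (g p : ℝ) / p) := by
    intro t ht hNt
    set k : ℕ := (N t).natAbs with hk
    have hk1 : 1 ≤ k := Int.natAbs_pos.2 hNt
    have e1 : ∏ p ∈ S, w p t = Real.exp (-∑ p ∈ S.filter (fun p => ¬ p ∣ k), (g p : ℝ) / p) := by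
      rw [← sum_neg_distrib, Real.exp_sum, prod_filter]
      apply Finset.prod_congr rfl
      intro p hp
      have hiff : (p : ℤ) ∣ N t ↔ p ∣ k := Int.natCast_dvd
      simp only [hw]
      by_cases h : p ∣ k
      · rw [if_pos (hiff.2 h), if_neg (by simpa using h)]
      · rw [if_neg (fun h' => h (hiff.1 h')), if_pos h]
    have e2 : ∑ p ∈ S, (g p : ℝ) / p ≤ ∑ p ∈ S.filter (fun p => ¬ p ∣ k), (g p : ℝ) / p + 1 := by
      rw [← sum_filter_add_sum_filter_not S (fun p => ¬ p ∣ k)]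
      have h1 : ∑ p ∈ S.filter (fun p => ¬ ¬ p ∣ k), (g p : ℝ) / p ≤ 1 := by
        have h2 : ∀ p ∈ S.filter (fun p => ¬ ¬ p ∣ k), (g p : ℝ) / p ≤ n / v₀ := by
          intro p hp
          have hpS := (mem_filter.1 hp).1
          have h3 : (g p : ℝ) ≤ n := by exact_mod_cast hg p hpS
          exact div_le_div₀ (Nat.cast_nonneg _) h3 hv₀ (hS p hpS).2.le
        have h3 : ((S.filter (fun p => ¬ ¬ p ∣ k)).card : ℝ) ≤ 2 * Real.log k := by
          have h12 : 2 ^ (S.filter (fun p => ¬ ¬ p ∣ k)).card ≤ k := by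
            have h13 : (S.filter (fun p => ¬ ¬ p ∣ k)) ⊆ k.primeFactors := by
              intro p hp
              rw [mem_filter] at hp
              exact Nat.mem_primeFactors.2 ⟨(hS p hp.1).1, not_not.1 hp.2, by omega⟩
            calc 2 ^ (S.filter (fun p => ¬ ¬ p ∣ k)).card ≤ 2 ^ k.primeFactors.card :=
                  Nat.pow_le_pow_right (by norm_num) (card_le_card h13)
              _ ≤ ∏ p ∈ k.primeFactors, p := by
                  rw [← prod_const]
                  exact Finset.prod_le_prod' fun p hp => (Nat.prime_of_mem_primeFactors hp).two_le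
              _ ≤ k := Nat.le_of_dvd (by omega) (Nat.prod_primeFactors_dvd k)
          have h14 : ((S.filter (fun p => ¬ ¬ p ∣ k)).card : ℝ) * Real.log 2 ≤ Real.log k := by
            rw [← Real.log_pow]
            apply Real.log_le_log (by positivity)
            exact_mod_cast h12
          have h15 := Real.log_two_gt_d9
          have h16 : (0 : ℝ) ≤ ((S.filter (fun p => ¬ ¬ p ∣ k)).card : ℝ) := by positivity
          nlinarith
        calc ∑ p ∈ S.filter (fun p => ¬ ¬ p ∣ k), (g p : ℝ) / p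
            ≤ ∑ p ∈ S.filter (fun p => ¬ ¬ p ∣ k), (n / v₀ : ℝ) := sum_le_sum h2
          _ = (S.filter (fun p => ¬ ¬ p ∣ k)).card * (n / v₀) := by rw [sum_const, nsmul_eq_mul]
          _ ≤ (2 * Real.log k) * (n / v₀) := by gcongr
          _ = (2 * n * Real.log k) / v₀ := by ring
          _ ≤ 1 := by rw [div_le_one hv₀]; exact hN t ht hNt
      linarith
    rw [e1]
    calc Real.exp (-∑ p ∈ S.filter (fun p => ¬ p ∣ k), (g p : ℝ) / p)
        ≤ Real.exp (1 + -∑ p ∈ S, (g p : ℝ) / p) := Real.exp_le_exp.2 (by linarith)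
      _ = Real.exp 1 * Real.exp (-∑ p ∈ S, (g p : ℝ) / p) := Real.exp_add _ _
      _ ≤ 3 * Real.exp (-∑ p ∈ S, (g p : ℝ) / p) := by
          have := Real.exp_one_lt_d9
          have := Real.exp_pos (-∑ p ∈ S, (g p : ℝ) / p)
          nlinarith
  have hone : ∀ t, ∏ p ∈ S, w p t ≤ 1 := by
    intro t
    apply Finset.prod_le_one (fun p hp => hw0 p hp t)
    intro p hp
    simp only [hw]
    split_ifs
    · exact le_rfl
    · rw [Real.exp_le_one_iff]
      have : (0 : ℝ) ≤ (g p : ℝ) / p := by positivity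
      linarith
  rw [← sum_filter_add_sum_filter_not R (fun t => N t = 0)]
  have e1 : ∑ t ∈ R.filter (fun t => N t = 0), ∏ p ∈ S, w p t ≤ (R.filter (fun t => N t = 0)).card := by
    calc ∑ t ∈ R.filter (fun t => N t = 0), ∏ p ∈ S, w p t
        ≤ ∑ t ∈ R.filter (fun t => N t = 0), (1 : ℝ) := sum_le_sum fun t _ => hone t
      _ = (R.filter (fun t => N t = 0)).card := by rw [sum_const, nsmul_eq_mul, mul_one]
  have e2 : ∑ t ∈ R.filter (fun t => ¬ N t = 0), ∏ p ∈ S, w p t ≤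
      R.card * (3 * Real.exp (-∑ p ∈ S, (g p : ℝ) / p)) := by
    calc ∑ t ∈ R.filter (fun t => ¬ N t = 0), ∏ p ∈ S, w p t
        ≤ ∑ t ∈ R.filter (fun t => ¬ N t = 0), (3 * Real.exp (-∑ p ∈ S, (g p : ℝ) / p)) :=
          sum_le_sum fun t ht => hterm t (mem_filter.1 ht).1 (mem_filter.1 ht).2
      _ = (R.filter (fun t => ¬ N t = 0)).card * (3 * Real.exp (-∑ p ∈ S, (g p : ℝ) / p)) := by
          rw [sum_const, nsmul_eq_mul]
      _ ≤ _ := by
          apply mul_le_mul_of_nonneg_right _ (by positivity)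
          exact_mod_cast card_le_card (filter_subset _ _)
  linarith

/-- the classes `s` with `w ^ n ≡ (s x) ^ n (mod p)` -/
theorem ratio_classes (p : ℕ) (hp : p.Prime) (n : ℕ) (hn : 1 ≤ n) (x w : ℤ) (hx : ¬ (p : ℤ) ∣ x * w) :
    (((range p).filter (fun s : ℕ => ¬ (p : ℤ) ∣ w ^ n - (s : ℤ) ^ n * x ^ n)).card : ℝ) =
      p - (((p - 1).gcd n : ℕ) : ℝ) := by
  have hxx : ¬ (p : ℤ) ∣ x := fun h => hx (h.mul_right w)
  have hww : ¬ (p : ℤ) ∣ w := fun h => hx (h.mul_left x)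
  have hc : IsCoprime (p : ℤ) x := (Nat.prime_iff_prime_int.1 hp).coprime_iff_not_dvd.2 hxx
  obtain ⟨u, x', huv⟩ := hc
  -- x' * x ≡ 1
  have hx'1 : (p : ℤ) ∣ x' * x - 1 := ⟨-u, by linear_combination huv⟩
  have hx'n : (p : ℤ) ∣ (x' * x) ^ n - 1 := by
    have := hx'1.trans (sub_dvd_pow_sub_pow (x' * x) 1 n)
    rwa [one_pow] at this
  have hx'' : ¬ (p : ℤ) ∣ x' := by
    intro h
    have h1 : (p : ℤ) ∣ 1 := by
      have := dvd_sub (h.mul_right x) hx'1
      refine this.trans (dvd_of_eq ?_); ring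
    have h2 := Int.eq_one_of_dvd_one (by positivity) h1
    have := hp.two_le
    omega
  have hprod : ¬ (p : ℤ) ∣ w * x' := by
    intro h
    rcases (Nat.prime_iff_prime_int.1 hp).dvd_or_dvd h with h | h
    · exact hww h
    · exact hx'' h
  have h1 := card_Zr p n hp hn (w * x') hprod
  have hset : (range p).filter (fun s : ℕ => (p : ℤ) ∣ w ^ n - (s : ℤ) ^ n * x ^ n) = Zr p n (w * x') := by
    unfold Zr
    apply filter_congr
    intro s _
    constructor
    · intro h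
      have h2 := dvd_add (h.mul_left (x' ^ n)) (hx'n.mul_left ((s : ℤ) ^ n))
      refine h2.trans (dvd_of_eq ?_)
      rw [mul_pow, mul_pow]
      ring
    · intro h
      have h2 := dvd_sub (h.mul_left (x ^ n)) (hx'n.mul_left (w ^ n))
      refine h2.trans (dvd_of_eq ?_)
      rw [mul_pow, mul_pow]
      ring
  have h2 : ((range p).filter (fun s : ℕ => (p : ℤ) ∣ w ^ n - (s : ℤ) ^ n * x ^ n)).card +
      ((range p).filter (fun s : ℕ => ¬ (p : ℤ) ∣ w ^ n - (s : ℤ) ^ n * x ^ n)).card = (range p).card :=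
    card_filter_add_card_filter_not _
  rw [hset, h1, card_range] at h2
  have h4 : (((p - 1).gcd n : ℕ) : ℝ) +
      (((range p).filter (fun s : ℕ => ¬ (p : ℤ) ∣ w ^ n - (s : ℤ) ^ n * x ^ n)).card : ℝ) = p := by exact_mod_cast h2
  linarith

/-- smooth numbers up to `L ≥ √ y` -/
theorem smooth_half (B' : ℕ) : ∃ y₀ : ℝ, ∀ y : ℝ, y₀ ≤ y → ∀ L : ℕ, Real.sqrt y ≤ L →
    (((Finset.Icc 1 L).filter (Smo (2 * ((4 * (B' + 1) + 6 : ℕ) + 2)) y)).card : ℝ) ≤ L / (Real.log y) ^ B' := by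
  obtain ⟨y₁, h⟩ := smooth_count_B (B' + 1)
  refine ⟨max (y₁ ^ 2) (Real.exp (Real.exp (Real.exp 4) + 2 ^ (B' + 1) + 4)), fun y hy L hL => ?_⟩
  have hy1 := (le_max_left _ _).trans hy
  have hy2 := (le_max_right _ _).trans hy
  have hy0 : 0 < y := (Real.exp_pos _).trans_le hy2
  have hly : Real.exp (Real.exp 4) + 2 ^ (B' + 1) + 4 ≤ Real.log y := by
    rw [← Real.log_exp (Real.exp (Real.exp 4) + 2 ^ (B' + 1) + 4)]
    exact Real.log_le_log (Real.exp_pos _) hy2
  have e0 := Real.exp_pos (Real.exp 4)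
  have e1 : (0 : ℝ) < 2 ^ (B' + 1) := by positivity
  have hlyp : 0 < Real.log y := by linarith
  have hy1' : y₁ ≤ Real.sqrt y := Real.le_sqrt_of_sq_le hy1
  have h1 := h (Real.sqrt y) hy1' L hL
  have hlogs : Real.log (Real.sqrt y) = Real.log y / 2 := Real.log_sqrt hy0.le
  rw [hlogs] at h1
  have hsub : (Finset.Icc 1 L).filter (Smo (2 * ((4 * (B' + 1) + 6 : ℕ) + 2)) y) ⊆
      (Finset.Icc 1 L).filter (Smo (2 * ((B' + 1 : ℕ) + 2)) (Real.sqrt y)) := by
    intro m hm
    rw [mem_filter] at hm ⊢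
    refine ⟨hm.1, fun p hp hd => ?_⟩
    have h3 := hm.2 p hp hd
    refine h3.trans ?_
    rw [hlogs]
    have hB0 : (0 : ℝ) ≤ B' := Nat.cast_nonneg _
    set l1 := Real.log y with hl1
    -- iterated logarithms
    have g1 : Real.exp 4 ≤ Real.log l1 := by
      rw [← Real.log_exp (Real.exp 4)]
      apply Real.log_le_log (Real.exp_pos _)
      linarith
    have g1' : (4 : ℝ) ≤ Real.log (Real.log l1) := by
      rw [← Real.log_exp 4]
      exact Real.log_le_log (Real.exp_pos _) g1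
    have g4 : (4 : ℝ) < Real.exp 4 := by have := Real.add_one_le_exp (4 : ℝ); linarith
    have g2 : Real.log (l1 / 2) = Real.log l1 - Real.log 2 := Real.log_div hlyp.ne' (by norm_num)
    have g3 := Real.log_two_lt_d9
    have g3' := Real.log_two_gt_d9
    have g5 : Real.log l1 / 2 ≤ Real.log (l1 / 2) := by rw [g2]; linarith
    have g6 : Real.log (l1 / 2) ≤ Real.log l1 := by rw [g2]; linarith
    have g7 : Real.log (Real.log l1) / 2 ≤ Real.log (Real.log (l1 / 2)) := by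
      have e2 : Real.log (Real.log l1 / 2) ≤ Real.log (Real.log (l1 / 2)) := Real.log_le_log (by linarith) g5
      rw [Real.log_div (by linarith) (by norm_num)] at e2
      linarith
    have k1 : 0 < Real.log l1 := by linarith
    have k2 : 0 < Real.log (l1 / 2) := by linarith
    push_cast
    set A := Real.log l1 with hA
    set A2 := Real.log (l1 / 2) with hA2
    set Bq := Real.log A with hBq
    set Bq2 := Real.log A2 with hBq2
    have k3 : 0 < Bq := by linarith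
    have k4 : 0 < Bq2 := by linarith
    have q1 : 0 < 2 * (4 * ((B' : ℝ) + 1) + 6 + 2) * A := by positivity
    have q2 : 0 < 2 * ((B' : ℝ) + 1 + 2) * A2 := by positivity
    rw [div_le_div_iff₀ q1 q2]
    have e5 : l1 * Bq * (2 * ((B' : ℝ) + 1 + 2) * A2) ≤ l1 * (2 * Bq2) * (2 * ((B' : ℝ) + 1 + 2) * A) := by
      apply mul_le_mul _ _ (by positivity) (by positivity)
      · exact mul_le_mul_of_nonneg_left (by linarith) hlyp.le
      · exact mul_le_mul_of_nonneg_left g6 (by positivity)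
    refine e5.trans (le_of_eq ?_)
    ring
  have hcard : (((Finset.Icc 1 L).filter (Smo (2 * ((4 * (B' + 1) + 6 : ℕ) + 2)) y)).card : ℝ) ≤
      (((Finset.Icc 1 L).filter (Smo (2 * ((B' + 1 : ℕ) + 2)) (Real.sqrt y))).card : ℝ) := by
    exact_mod_cast card_le_card hsub
  refine hcard.trans (h1.trans ?_)
  have hL0 : (0 : ℝ) ≤ L := Nat.cast_nonneg _
  rw [div_pow, div_div_eq_mul_div, pow_succ (Real.log y) B']
  rw [div_le_div_iff₀ (by positivity) (by positivity)]
  have e6 : (2 : ℝ) ^ (B' + 1) ≤ Real.log y := by linarith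
  calc (L : ℝ) * 2 ^ (B' + 1) * Real.log y ^ B' ≤ L * Real.log y * Real.log y ^ B' := by gcongr
    _ = _ := by ring

/-- sum over `d ≤ P` -/
theorem cnt_PQ (n : ℕ) (hn : 1 ≤ n) : ∃ C : ℝ, 0 < C ∧ ∀ (W : ℕ) (_ : 1 ≤ W) (y : ℝ) (S : Finset ℕ)
    (ε : ℤ) (_ : ε = 1 ∨ ε = -1) (P Q : ℕ) (_ : P ≤ Q) (K w : ℕ) (_ : W ≤ K) (_ : n ≤ K) (_ : (w : ℝ) ≤ y)
    (Sm : ℕ → Prop) (_ : ∀ m : ℕ, 1 ≤ m → m ≤ 2 * Q →
      (∀ p : ℕ, p.Prime → p ∣ m → (y < p ∨ p ∈ S ∨ p ∣ W)) → Sm m ∨
        (∀ p : ℕ, p.Prime → p ∣ m → (y < p ∨ p ∣ W)))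
    (_ : ∀ E : ℕ → Finset ℕ, Sys K w E →
        (((Icc 1 Q).filter (fun l => ∀ p ∈ PR K w, l % p ∉ E p)).card : ℝ) ≤
          2 * Q * ∏ p ∈ PR K w, (1 - ((E p).card : ℝ) / p) + Real.sqrt Q)
    (A : ℝ) (_ : A ≤ ∑ p ∈ PR K w, ((Ecl n S 1 p).card : ℝ) / p),
    (((Icc 1 P ×ˢ Icc 1 Q).filter (fun k : ℕ × ℕ => Okp n W y S (ε * k.1) k.2)).card : ℝ) ≤
      P * (1 + 4 * ((Finset.Icc 1 (2 * Q)).filter Sm).card + Real.sqrt Q) + C * (P * Q) * Real.exp (-A) := by
  obtain ⟨C, hC, hmom⟩ := Pool.Agent.H646.MomentM.rat_moment (n - 1)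
  refine ⟨2 * C, by positivity, ?_⟩
  intro W hW y S ε hε P Q hPQ K w hKW hKn hwy Sm hdich hsv A hA
  have hd : ∀ d ∈ Icc 1 P, (((Icc 1 Q).filter (fun l : ℕ => Okp n W y S (ε * d) l)).card : ℝ) ≤
      (1 + 4 * ((Finset.Icc 1 (2 * Q)).filter Sm).card + Real.sqrt Q) + 2 * Q * Real.exp (-A) * rat d ^ (n - 1) := by
    intro d hd
    rw [mem_Icc] at hd
    have h1 := cnt_d n W hW y S ε hε d Q hd.1 (by omega) K w hKW hwy Sm hdich
    have h2 := hsv _ (Ecl_sys' n hn S (ε * d) K w hKn)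
    have h3 : ∏ p ∈ PR K w, (1 - ((Ecl n S (ε * d) p).card : ℝ) / p) ≤ Real.exp (-A) * rat d ^ (n - 1) := by
      calc ∏ p ∈ PR K w, (1 - ((Ecl n S (ε * d) p).card : ℝ) / p)
          ≤ ∏ p ∈ PR K w, Real.exp (-(((Ecl n S (ε * d) p).card : ℝ) / p)) := by
            apply Finset.prod_le_prod
            · intro p hp
              have h5 := (PR_prime' hp).1.pos
              have h6 : (0 : ℝ) < p := by exact_mod_cast h5
              rw [sub_nonneg, div_le_one h6]
              have h7 := card_le_card ((Ecl_sys' n hn S (ε * d) K w hKn).sub p hp)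
              rw [card_range] at h7
              exact_mod_cast h7
            · intro p _
              have := Real.add_one_le_exp (-(((Ecl n S (ε * d) p).card : ℝ) / p))
              linarith
        _ = Real.exp (-∑ p ∈ PR K w, ((Ecl n S (ε * d) p).card : ℝ) / p) := by
            rw [← Real.exp_sum, sum_neg_distrib]
        _ ≤ Real.exp (-A + ((n - 1 : ℕ) : ℝ) * ∑ p ∈ d.primeFactors, 1 / (p : ℝ)) := by
            apply Real.exp_le_exp.2
            have := sum_Ecl_d n hn S ε hε K w d hd.1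
            linarith
        _ = Real.exp (-A) * Real.exp (((n - 1 : ℕ) : ℝ) * ∑ p ∈ d.primeFactors, 1 / (p : ℝ)) := Real.exp_add _ _
        _ ≤ _ := mul_le_mul_of_nonneg_left (exp_rat d hd.1 (n - 1)) (Real.exp_pos _).le
    have h4 : 2 * (Q : ℝ) * ∏ p ∈ PR K w, (1 - ((Ecl n S (ε * d) p).card : ℝ) / p) ≤
        2 * Q * (Real.exp (-A) * rat d ^ (n - 1)) :=
      mul_le_mul_of_nonneg_left h3 (by positivity)
    have h5 : (((Icc 1 Q).filter (fun l : ℕ => Okp n W y S (ε * d) l)).card : ℝ) ≤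
      1 + 4 * ((Finset.Icc 1 (2 * Q)).filter Sm).card +
        ((Icc 1 Q).filter (fun l => ∀ p ∈ PR K w, l % p ∉ Ecl n S (ε * d) p)).card := by exact_mod_cast h1
    linarith
  have hsum : (((Icc 1 P ×ˢ Icc 1 Q).filter (fun k : ℕ × ℕ => Okp n W y S (ε * k.1) k.2)).card : ℝ) =
      ∑ d ∈ Icc 1 P, (((Icc 1 Q).filter (fun l : ℕ => Okp n W y S (ε * d) l)).card : ℝ) := by
    rw [card_filter, sum_product]
    push_cast
    apply sum_congr rfl
    intro d _
    rw [card_filter]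
    push_cast
    rfl
  rw [hsum]
  refine (sum_le_sum hd).trans ?_
  rw [sum_add_distrib, sum_const, Nat.card_Icc, Nat.add_sub_cancel, nsmul_eq_mul, ← mul_sum]
  have h6 := hmom P
  have h7 : 2 * (Q : ℝ) * Real.exp (-A) * ∑ d ∈ Icc 1 P, rat d ^ (n - 1) ≤ 2 * Q * Real.exp (-A) * (C * P) :=
    mul_le_mul_of_nonneg_left h6 (by positivity)
  have e : 2 * C * (P * Q) * Real.exp (-A) = 2 * Q * Real.exp (-A) * (C * P) := by ring
  rw [e]
  linarith

end Pool.Agent.N893.FR
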