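import Mathlib
import Pool.Agent.N893.FR.Gre
import Pool.Agent.N893.MC.Surv2

set_option autoImplicit false
set_option maxHeartbeats 8000000

/-! # The survivors of the sieve for the form `a x ^ n + w ^ n` on a rectangle -/

namespace Pool.Agent.N893.FR

open Finset Filter Pool.Agent.H646 Pool.Agent.H646.Sv1M Pool.Agent.H318R2.Cr Pool.Agent.H398R2.RK
  Pool.Agent.N893.RK Pool.Agent.N893.MC

open scoped Classical

/-- the coprime pairs of the rectangle -/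
noncomputable def Rect (N M : ℕ) : Finset (ℤ × ℤ) :=
  ((Finset.Icc 1 (N : ℤ)) ×ˢ (Finset.Icc (-(M : ℤ)) M)).filter (fun k => IsCoprime k.1 k.2)

theorem mem_Rect {N M : ℕ} {k : ℤ × ℤ} : k ∈ Rect N M ↔
    ((1 ≤ k.1 ∧ k.1 ≤ N) ∧ (-(M : ℤ) ≤ k.2 ∧ k.2 ≤ M)) ∧ IsCoprime k.1 k.2 := by
  unfold Rect
  rw [mem_filter, mem_product, mem_Icc, mem_Icc]

theorem card_R (n W : ℕ) (y : ℝ) (S : Finset ℕ) (N M : ℕ) :
    ((Rect N M).filter (fun k => Okp n W y S k.1 k.2)).card ≤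
      ((Icc 1 (min N M) ×ˢ Icc 1 (max N M)).filter (fun k : ℕ × ℕ => Okp n W y S ((1 : ℤ) * k.1) k.2)).card +
      ((Icc 1 (min N M) ×ˢ Icc 1 (max N M)).filter (fun k : ℕ × ℕ => Okp n W y S ((-1 : ℤ) * k.1) k.2)).card + 1 := by
  obtain ⟨T, hT⟩ : ∃ T : ℤ → Finset (ℕ × ℕ), ∀ ε, T ε = (Icc 1 (min N M) ×ˢ Icc 1 (max N M)).filter
    (fun k : ℕ × ℕ => Okp n W y S (ε * k.1) k.2) := ⟨fun ε => _, fun ε => rfl⟩
  rw [← hT, ← hT]
  obtain ⟨f, hf⟩ : ∃ f : ℤ → ℕ × ℕ → ℤ × ℤ, ∀ ε k, f ε k = if N ≤ M then ((k.1 : ℤ), ε * k.2) else ((k.2 : ℤ), ε * k.1) :=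
    ⟨fun ε k => _, fun ε k => rfl⟩
  have hsub : (Rect N M).filter (fun k => Okp n W y S k.1 k.2) ⊆
      ((T 1).image (f 1) ∪ (T (-1)).image (f (-1))) ∪ {((1 : ℤ), (0 : ℤ))} := by
    rintro ⟨x, w⟩ hk
    rw [mem_filter, mem_Rect] at hk
    simp only at hk
    obtain ⟨⟨⟨⟨hx1, hxN⟩, hw1, hw2⟩, hcop⟩, hok⟩ := hk
    rw [mem_union, mem_union]
    by_cases hw : w = 0
    · right
      rw [hw, isCoprime_zero_right, Int.isUnit_iff] at hcop
      rcases hcop with h | h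
      · rw [h, hw]; exact mem_singleton_self _
      · omega
    · left
      -- sign
      obtain ⟨ε, hε, hwe⟩ : ∃ ε : ℤ, (ε = 1 ∨ ε = -1) ∧ w = ε * w.natAbs := by
        rcases Int.natAbs_eq w with h | h
        · exact ⟨1, Or.inl rfl, by rw [one_mul]; exact h⟩
        · exact ⟨-1, Or.inr rfl, by rw [neg_one_mul]; exact h⟩
      have hεn : ε ^ n * ε ^ n = 1 := by
        rw [← mul_pow]
        rcases hε with rfl | rfl <;> simp
      have hwa1 : 1 ≤ w.natAbs := Int.natAbs_pos.2 hw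
      have hwaM : w.natAbs ≤ M := by omega
      have hx' : ((x.toNat : ℕ) : ℤ) = x := Int.toNat_of_nonneg (by omega)
      have hxa1 : 1 ≤ x.toNat := by omega
      have hxaN : x.toNat ≤ N := by omega
      have hmem : (x, w) ∈ (T ε).image (f ε) := by
        rw [mem_image]
        by_cases hNM : N ≤ M
        · refine ⟨(x.toNat, w.natAbs), ?_, ?_⟩
          · rw [hT, mem_filter, mem_product, mem_Icc, mem_Icc, min_eq_left hNM, max_eq_right hNM]
            refine ⟨⟨⟨hxa1, hxaN⟩, hwa1, hwaM⟩, fun p hp h1 h2 h3 hd => ?_⟩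
            apply hok p hp h1 h2 h3
            simp only at hd
            rw [hx'] at hd
            have h4 := hd.mul_left (ε ^ n)
            refine h4.trans (dvd_of_eq ?_)
            rw [mul_sub, mul_pow ε x, ← mul_assoc, hεn, one_mul, ← mul_pow, ← hwe]
          · rw [hf, if_pos hNM]
            simp only
            rw [hx', ← hwe]
        · have hMN : M ≤ N := by omega
          refine ⟨(w.natAbs, x.toNat), ?_, ?_⟩
          · rw [hT, mem_filter, mem_product, mem_Icc, mem_Icc, min_eq_right hMN, max_eq_left hMN]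
            refine ⟨⟨⟨hwa1, hwaM⟩, hxa1, hxaN⟩, fun p hp h1 h2 h3 hd => ?_⟩
            apply hok p hp h1 h2 h3
            simp only at hd
            rw [hx', ← hwe] at hd
            have h4 := hd.neg_right
            refine h4.trans (dvd_of_eq ?_)
            ring
          · rw [hf, if_neg hNM]
            simp only
            rw [hx', ← hwe]
      rcases hε with rfl | rfl
      · left; exact hmem
      · right; exact hmem
  refine (card_le_card hsub).trans ((card_union_le _ _).trans ?_)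
  rw [card_singleton]
  refine Nat.add_le_add_right ?_ _
  refine (card_union_le _ _).trans ?_
  exact Nat.add_le_add card_image_le card_image_le

theorem aux_log (B t : ℝ) (hB : 0 ≤ B) (ht : 1 ≤ t) (h : (B + 5) * 20 * (B + 5) * t ^ 2 ≤ Real.exp t) :
    2 * Real.log t ≤ t := by
  have e1 : t ^ 2 ≤ Real.exp t := by
    refine le_trans ?_ h
    have : (1 : ℝ) ≤ (B + 5 : ℝ) * 20 * (B + 5) := by nlinarith
    nlinarith [sq_nonneg t]
  have e2 := Real.log_le_log (by positivity) e1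
  rw [Real.log_pow, Real.log_exp] at e2
  exact_mod_cast e2

theorem aux_pow (B : ℕ) (t : ℝ) (ht : 1 ≤ t) (h : ((B : ℝ) + 5) * 20 * (B + 5) * t ^ 2 ≤ Real.exp t) (j : ℕ)
    (hj : j ≤ 4 * B) : Real.exp t ^ j ≤ Real.exp (Real.exp t) := by
  rw [← Real.exp_nat_mul]
  apply Real.exp_le_exp.2
  refine le_trans ?_ h
  have hjr : (j : ℝ) ≤ 4 * B := by exact_mod_cast hj
  have hB0 : (0 : ℝ) ≤ B := Nat.cast_nonneg _
  have e1 : (j : ℝ) * t ≤ (4 * B) * t ^ 2 := by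
    have : t ≤ t ^ 2 := by nlinarith
    exact mul_le_mul hjr this (by linarith) (by positivity)
  have e2 : 4 * (B : ℝ) ≤ (B + 5 : ℝ) * 20 * (B + 5) := by nlinarith
  exact e1.trans (mul_le_mul_of_nonneg_right e2 (by positivity))

theorem aux_card (R a b P Q Z A s C₀ C₅ : ℝ) (hP : 1 ≤ P) (hC : 0 ≤ C₀ * C₅)
    (hZ : 1 ≤ Q * Z) (hA : A ≤ 2 * (Q * Z)) (hs : s ≤ Q * Z) (hR : R ≤ a + b + 1)
    (ha : a ≤ P * (1 + 4 * A + s) + C₀ * (P * Q) * (C₅ * Z)) (hb : b ≤ P * (1 + 4 * A + s) + C₀ * (P * Q) * (C₅ * Z)) :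
    R ≤ (21 + 2 * C₀ * C₅) * (P * Q * Z) := by
  have e6 : P * (1 + 4 * A + s) ≤ P * (10 * (Q * Z)) := by
    apply mul_le_mul_of_nonneg_left _ (by linarith)
    linarith
  have e7 : 1 ≤ P * (Q * Z) := by nlinarith
  have e8 : C₀ * (P * Q) * (C₅ * Z) = C₀ * C₅ * (P * (Q * Z)) := by ring
  have e9 : (21 + 2 * C₀ * C₅) * (P * Q * Z) = 21 * (P * (Q * Z)) + 2 * (C₀ * C₅ * (P * (Q * Z))) := by ring
  have e10 : P * (10 * (Q * Z)) = 10 * (P * (Q * Z)) := by ring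
  rw [e9]
  rw [e8] at ha hb
  rw [e10] at e6
  linarith

/-- The survivors of the sieve by the primes up to `y`. -/
theorem survivors_fr (n : ℕ) (hn : 1 ≤ n) (W : ℕ) (hW : 1 ≤ W) :
    ∃ C : ℝ, 0 < C ∧ ∃ y₀ : ℝ, ∀ y : ℝ, y₀ ≤ y → ∀ N M : ℕ, y ≤ (N : ℝ) * M →
      (N : ℝ) * M ≤ y * (Real.log y) ^ (n.divisors.card + kap n) →
    ∃ (S : Finset ℕ) (s : ℕ → ℕ), (∀ p ∈ S, p.Prime ∧ ¬ p ∣ W ∧ (p : ℝ) ≤ y) ∧
      (((Rect N M).filter (fun k => Okp n W y S k.1 k.2 ∧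
        ∀ p ∈ S, ¬ (p : ℤ) ∣ k.2 ^ n - (s p : ℤ) ^ n * k.1 ^ n)).card : ℝ) ≤
      C * (N * M) * (Real.log (Real.log y)) ^ (2 * kap n) /
        ((Real.log y) ^ (n.divisors.card + kap n) * (Real.log (Real.log (Real.log y))) ^ (kap n)) := by
  obtain ⟨D, hD⟩ : ∃ D : ℕ, D = n.divisors.card := ⟨_, rfl⟩
  obtain ⟨κ, hκ⟩ : ∃ κ : ℕ, κ = kap n := ⟨_, rfl⟩
  have hκ1 : 1 ≤ κ := by rw [hκ]; exact kap_pos n
  have hκD : κ ≤ D := by rw [hκ, hD]; exact kap_le_div n hn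
  obtain ⟨B', hB'⟩ : ∃ B' : ℕ, B' = D + κ + 2 := ⟨_, rfl⟩
  obtain ⟨B, hB⟩ : ∃ B : ℕ, B = 4 * (B' + 1) + 6 := ⟨_, rfl⟩
  obtain ⟨K, hKdef⟩ : ∃ K : ℕ, K = max n W := ⟨_, rfl⟩
  have hKn : n ≤ K := by rw [hKdef]; exact le_max_left _ _
  have hKW : W ≤ K := by rw [hKdef]; exact le_max_right _ _
  obtain ⟨y₁, hy₁2, hR3⟩ := rankin3 B (by omega) W hW
  obtain ⟨y₂, hsmh⟩ := smooth_half B'
  rw [← hB] at hsmh
  obtain ⟨Q', hQ', Y₀, hY₀3, hcb⟩ := class_bound K (by omega)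
  obtain ⟨C₀, hC₀, hcnt⟩ := cnt_PQ n hn
  obtain ⟨C₁, hC₁, hs1⟩ := sum_gcd_Ioc n hn
  obtain ⟨C₂, hC₂, hs2⟩ := sum_gcd_Ioc (kap n) (kap_pos n)
  obtain ⟨C₃, hC₃, hs3⟩ := sum_gcd_PR n hn K
  obtain ⟨C₄, hC₄, hDel⟩ := Delta_bounds B (by omega)
  rw [kap_divisors, ← hκ] at hs2
  rw [← hD] at hs1 hs3
  simp only [← hD, ← hκ]
  obtain ⟨t₀, hev⟩ := ev_exp B 1 one_pos
  have hQ1 : (1 : ℝ) ≤ Q' := by exact_mod_cast hQ'
  obtain ⟨C₅, hC₅⟩ : ∃ C₅ : ℝ, C₅ = D * Real.log (48 * Q') + C₃ + C₁ + C₂ + (D + κ) * C₄ := ⟨_, rfl⟩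
  obtain ⟨C₆, hC₆⟩ : ∃ C₆ : ℝ, C₆ = C₁ + D * C₄ := ⟨_, rfl⟩
  refine ⟨(21 + 2 * C₀ * Real.exp C₅) * (3 * Real.exp C₆) + 1, by positivity,
    max (max y₁ y₂) (max (Real.exp (Real.exp t₀)) (max (Real.exp (2 * (Y₀ + W + 4))) (Real.exp (4 * n + 4)))),
    fun y hy N M hyL hLy => ?_⟩
  obtain ⟨u, v, hu3, huv, hvy, hlu1, hlu2, hlv1, hlv2, hS, _, hdich⟩ :=
    hR3 y ((le_max_left _ _).trans ((le_max_left _ _).trans hy))
  have hsm := hsmh y ((le_max_right _ _).trans ((le_max_left _ _).trans hy))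
  obtain ⟨S, hSdef⟩ : ∃ S : Finset ℕ, S = (Ioc u v).filter Nat.Prime := ⟨_, rfl⟩
  have hy' := (le_max_left _ _).trans ((le_max_right _ _).trans hy)
  have hy'' := (le_max_left _ _).trans ((le_max_right _ _).trans ((le_max_right _ _).trans hy))
  have hy''' := (le_max_right _ _).trans ((le_max_right _ _).trans ((le_max_right _ _).trans hy))
  have hy0 : 0 < y := (Real.exp_pos _).trans_le hy'
  have hL1' : Real.exp t₀ ≤ Real.log y := by
    rw [← Real.log_exp (Real.exp t₀)]; exact Real.log_le_log (Real.exp_pos _) hy'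
  have hlx : 2 * ((Y₀ : ℝ) + W + 4) ≤ Real.log y := by
    rw [← Real.log_exp (2 * ((Y₀ : ℝ) + W + 4))]; exact Real.log_le_log (Real.exp_pos _) hy''
  have hlm : 4 * (n : ℝ) + 4 ≤ Real.log y := by
    rw [← Real.log_exp (4 * (n : ℝ) + 4)]; exact Real.log_le_log (Real.exp_pos _) hy'''
  have hly : 0 < Real.log y := (Real.exp_pos _).trans_le hL1'
  set t := Real.log (Real.log y) with ht
  have htt : t₀ ≤ t := by
    rw [← Real.log_exp t₀]; exact Real.log_le_log (Real.exp_pos _) hL1'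
  obtain ⟨h1, h2, h5, h3, h4, _⟩ := hev t htt
  have hLe : Real.log y = Real.exp t := by rw [ht, Real.exp_log hly]
  have hye : y = Real.exp (Real.exp t) := by rw [← hLe, Real.exp_log hy0]
  have hly100 : 100 ≤ Real.log y := by rw [hLe]; exact h4
  have hly1 : 1 ≤ Real.log y := by linarith
  have hylog : Real.log y ≤ y := by
    have := Real.log_le_sub_one_of_pos hy0
    linarith
  have hy100 : 100 ≤ y := by linarith
  have ht0 : 0 < t := by linarith
  have hlt0 : 0 < Real.log t := by linarith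
  have hW0 : (0 : ℝ) ≤ W := Nat.cast_nonneg _
  have hY00 : (0 : ℝ) ≤ Y₀ := Nat.cast_nonneg _
  have hκr : (1 : ℝ) ≤ κ := by exact_mod_cast hκ1
  have hκDr : (κ : ℝ) ≤ D := by exact_mod_cast hκD
  have hBr : (B' : ℝ) = D + κ + 2 := by rw [hB']; push_cast; ring
  obtain ⟨v₀, hv₀⟩ : ∃ v₀ : ℝ, v₀ = Real.log y ^ B := ⟨_, rfl⟩
  rw [← hv₀] at hS hdich
  -- powers of the logarithm
  have hpow_y : ∀ j : ℕ, j ≤ 4 * B → Real.log y ^ j ≤ y := by
    intro j hj
    have e1 := aux_pow B t h1 h3 j hj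
    rw [← hLe, Real.exp_log hy0] at e1
    exact e1
  -- the sides
  obtain ⟨P, hP⟩ : ∃ P : ℕ, P = min N M := ⟨_, rfl⟩
  obtain ⟨Q, hQ⟩ : ∃ Q : ℕ, Q = max N M := ⟨_, rfl⟩
  have hPQ : P ≤ Q := by rw [hP, hQ]; exact min_le_max
  have hPQm : (P : ℝ) * Q = N * M := by
    have : P * Q = N * M := by rw [hP, hQ]; exact min_mul_max N M
    exact_mod_cast this
  have hNM0 : 0 < (N : ℝ) * M := by linarith
  have hP1 : 1 ≤ P := by
    by_contra h
    have : P = 0 := by omega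
    rw [this, Nat.cast_zero, zero_mul] at hPQm
    linarith
  have hP1r : (1 : ℝ) ≤ P := by exact_mod_cast hP1
  have hPQr : (P : ℝ) ≤ Q := by exact_mod_cast hPQ
  have hQ0 : (0 : ℝ) < Q := by linarith
  have hQle : (Q : ℝ) ≤ N * M := by rw [← hPQm]; exact le_mul_of_one_le_left hQ0.le hP1r
  have hyQ : y ≤ (Q : ℝ) ^ 2 := by
    have : (P : ℝ) * Q ≤ Q * Q := mul_le_mul_of_nonneg_right hPQr hQ0.le
    rw [hPQm] at this
    rw [sq]
    linarith
  have hsyQ : Real.sqrt y ≤ Q := by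
    rw [Real.sqrt_le_left hQ0.le]; exact hyQ
  have hSW : ∀ p ∈ S, ¬ p ∣ W := by
    intro p hp hd
    have h6 := Nat.le_of_dvd hW hd
    have h7 : (p : ℝ) ≤ W := by exact_mod_cast h6
    rw [hSdef] at hp
    have h8 := (hS p hp).2.1
    have h9 : Real.log y ≤ v₀ := by
      rw [hv₀]
      calc Real.log y = Real.log y ^ 1 := (pow_one _).symm
        _ ≤ _ := pow_le_pow_right₀ hly1 (by omega)
    linarith
  -- sizes
  have hsq : Real.log y ≤ Real.sqrt y := by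
    apply Real.le_sqrt_of_sq_le
    exact hpow_y 2 (by omega)
  have hQY₀ : Y₀ ≤ Q := by
    have : (Y₀ : ℝ) ≤ Q := by linarith
    exact_mod_cast this
  have hNMyy : (N : ℝ) * M ≤ y * y :=
    hLy.trans (mul_le_mul_of_nonneg_left (hpow_y _ (by omega)) hy0.le)
  have hLv : (N : ℝ) * M * 4 ≤ y * v₀ := by
    calc (N : ℝ) * M * 4 ≤ (y * Real.log y ^ (D + κ)) * (Real.log y ^ 2) := by
          have h6 : (4 : ℝ) ≤ Real.log y ^ 2 := by
            calc (4 : ℝ) ≤ 100 ^ 2 := by norm_num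
              _ ≤ Real.log y ^ 2 := pow_le_pow_left₀ (by norm_num) hly100 2
          exact mul_le_mul hLy h6 (by norm_num) (by positivity)
      _ = y * Real.log y ^ (D + κ + 2) := by rw [pow_add]; ring
      _ ≤ y * v₀ := by
        rw [hv₀]
        apply mul_le_mul_of_nonneg_left _ hy0.le
        exact pow_le_pow_right₀ hly1 (by omega)
  have h2Q : ((2 * Q : ℕ) : ℝ) = 2 * Q := by push_cast; ring
  obtain ⟨w, hw3, hwL, hwlog, hcbE⟩ := hcb Q hQY₀
  have hQysq : Real.sqrt Q ≤ y := by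
    rw [Real.sqrt_le_left hy0.le]
    exact hQle.trans (hNMyy.trans (le_of_eq (by ring)))
  have hwy : (w : ℝ) ≤ y := hwL.trans hQysq
  -- the sums
  have hw0 : (0 : ℝ) < w := by exact_mod_cast (by omega : 0 < w)
  have hlLy : Real.log y / 2 ≤ Real.log Q := by
    have e1 := Real.log_le_log hy0 hyQ
    rw [Real.log_pow] at e1
    push_cast at e1
    linarith
  have hllw : t - Real.log (48 * Q') ≤ Real.log (Real.log w) := by
    have e1 : Real.log y / (48 * Q') ≤ Real.log w := by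
      refine le_trans ?_ hwlog
      have e0 : Real.log y / (48 * Q') = (Real.log y / 2) / (24 * Q') := by ring
      rw [e0]
      exact div_le_div_of_nonneg_right hlLy (by positivity)
    rw [ht, ← Real.log_div hly.ne' (by positivity)]
    exact Real.log_le_log (by positivity) e1
  set E0 : ℝ := t + Real.log (Real.log t) - 2 * Real.log t with hE0
  have hDelta := hDel t (Real.log u) (Real.log v) h1 h2 hlu1 hlu2 (by rw [← hLe]; exact hlv1)
    (by rw [← hLe]; exact hlv2)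
  have hS1 := hs1 u v hu3 huv
  have hS2 := hs2 u v hu3 huv
  have hS3 := hs3 w hw3
  rw [← hSdef] at hS1 hS2
  rw [abs_le] at hDelta hS1 hS2
  have hD0 : (0 : ℝ) ≤ D := Nat.cast_nonneg _
  have hSg : D * E0 - C₆ ≤ ∑ p ∈ S, (((p - 1).gcd n : ℕ) : ℝ) / p := by
    have e1 : (D : ℝ) * (E0 - C₄) ≤ D * (Real.log (Real.log v) - Real.log (Real.log u)) :=
      mul_le_mul_of_nonneg_left (by linarith [hDelta.1]) hD0
    rw [hC₆]
    linarith [hS1.1]
  have hA : κ * t + (D - κ) * (t - E0) - C₅ ≤ ∑ p ∈ PR K w, ((Ecl n S 1 p).card : ℝ) / p := by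
    have hE := sum_Ecl n hn K w S 1 (Or.inl rfl)
    rw [← hκ] at hE
    refine le_trans ?_ hE
    have e1 : (D : ℝ) * (t - Real.log (48 * Q')) ≤ D * Real.log (Real.log w) :=
      mul_le_mul_of_nonneg_left hllw hD0
    have e2 : (D : ℝ) * (Real.log (Real.log v) - Real.log (Real.log u)) ≤ D * (E0 + C₄) :=
      mul_le_mul_of_nonneg_left (by linarith [hDelta.2]) hD0
    have e3 : (κ : ℝ) * (E0 - C₄) ≤ κ * (Real.log (Real.log v) - Real.log (Real.log u)) :=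
      mul_le_mul_of_nonneg_left (by linarith [hDelta.1]) (by linarith)
    rw [hC₅]
    linarith [hS1.2, hS2.1]
  obtain ⟨A1, hA1⟩ : ∃ A1 : Finset ℕ, A1 = (Finset.Icc 1 (2 * Q)).filter (Smo (2 * ((B : ℕ) + 2)) y) := ⟨_, rfl⟩
  obtain ⟨Z, hZ⟩ : ∃ Z : ℝ, Z = Real.exp (-(κ * t + (D - κ) * (t - E0))) := ⟨_, rfl⟩
  have hZ0 : 0 < Z := by rw [hZ]; exact Real.exp_pos _
  have hcok : ∀ ε : ℤ, ε = 1 ∨ ε = -1 →
      (((Icc 1 P ×ˢ Icc 1 Q).filter (fun k : ℕ × ℕ => Okp n W y S (ε * k.1) k.2)).card : ℝ) ≤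
      P * (1 + 4 * A1.card + Real.sqrt Q) + C₀ * (P * Q) * (Real.exp C₅ * Z) := by
    intro ε hε
    have h6 := hcnt W hW y S ε hε P Q hPQ K w hKW hKn hwy (Smo (2 * ((B : ℕ) + 2)) y)
      (fun m hm1 hmM hfac => hdich m hm1 (by
        have h6 : (m : ℝ) ≤ 2 * Q := by rw [← h2Q]; exact_mod_cast hmM
        linarith) (by rw [← hSdef]; exact hfac)) hcbE _ hA
    have e1 : Real.exp (-(κ * t + (D - κ) * (t - E0) - C₅)) = Real.exp C₅ * Z := by
      rw [hZ, ← Real.exp_add]; congr 1; ring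
    rw [e1, ← hA1] at h6
    exact h6
  have hA1c : (A1.card : ℝ) ≤ 2 * Q / Real.log y ^ B' := by
    have h6 := hsm (2 * Q) (by rw [h2Q]; linarith)
    rw [hA1, ← h2Q]; convert h6
  obtain ⟨R', hR'⟩ : ∃ R' : Finset (ℤ × ℤ), R' = (Rect N M).filter (fun k => Okp n W y S k.1 k.2) := ⟨_, rfl⟩
  have hlogt_le : 2 * Real.log t ≤ t := aux_log B t (Nat.cast_nonneg _) h1 h3
  have hllt0 : 0 ≤ Real.log (Real.log t) := Real.log_nonneg h2
  have hE0t : t - E0 ≤ t := by rw [hE0]; linarith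
  have hinvB : 1 / Real.log y ^ B' ≤ Z := by
    rw [hZ, hLe, ← Real.exp_nat_mul, one_div, ← Real.exp_neg]
    apply Real.exp_le_exp.2
    have e1 : ((D : ℝ) - κ) * (t - E0) ≤ (D - κ) * t := mul_le_mul_of_nonneg_left hE0t (by linarith)
    have e2 : 0 ≤ ((κ : ℝ) + 2) * t := by positivity
    rw [hBr]
    linarith
  have hRcard : (R'.card : ℝ) ≤ (21 + 2 * C₀ * Real.exp C₅) * (N * M * Z) := by
    have h6 := card_R n W y S N M
    rw [← hP, ← hQ, ← hR'] at h6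
    have h7 : (R'.card : ℝ) ≤
      (((Icc 1 P ×ˢ Icc 1 Q).filter (fun k : ℕ × ℕ => Okp n W y S ((1 : ℤ) * k.1) k.2)).card : ℝ) +
      (((Icc 1 P ×ˢ Icc 1 Q).filter (fun k : ℕ × ℕ => Okp n W y S ((-1 : ℤ) * k.1) k.2)).card : ℝ) + 1 := by
      exact_mod_cast h6
    have h8 := hcok 1 (Or.inl rfl)
    have h9 := hcok (-1) (Or.inr rfl)
    have e2 : (A1.card : ℝ) ≤ 2 * (Q * Z) := by
      refine hA1c.trans ?_
      calc 2 * (Q : ℝ) / Real.log y ^ B' = 2 * Q * (1 / Real.log y ^ B') := by ring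
        _ ≤ 2 * Q * Z := by gcongr
        _ = _ := by ring
    have hLyB : Real.log y ^ (2 * B') ≤ Q := by
      refine le_trans ?_ hsyQ
      apply Real.le_sqrt_of_sq_le
      rw [← pow_mul]
      exact hpow_y _ (by omega)
    have hZinv : 1 ≤ Real.log y ^ B' * Z := by
      rw [div_le_iff₀ (by positivity)] at hinvB
      linarith
    have e3 : Real.sqrt Q ≤ Q * Z := by
      have e4 : Real.log y ^ B' ≤ Real.sqrt Q := by
        apply Real.le_sqrt_of_sq_le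
        rw [← pow_mul, mul_comm B' 2]
        exact hLyB
      calc Real.sqrt Q = Real.sqrt Q * 1 := (mul_one _).symm
        _ ≤ Real.sqrt Q * (Real.log y ^ B' * Z) := by gcongr
        _ ≤ Real.sqrt Q * (Real.sqrt Q * Z) := by gcongr
        _ = (Real.sqrt Q * Real.sqrt Q) * Z := by ring
        _ = Q * Z := by rw [Real.mul_self_sqrt hQ0.le]
    have hQ1r : (1 : ℝ) ≤ Q := by linarith
    have e5 : (1 : ℝ) ≤ Q * Z := by
      refine le_trans ?_ e3
      rw [Real.one_le_sqrt]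
      exact hQ1r
    rw [← hPQm]
    exact aux_card _ _ _ P Q Z A1.card (Real.sqrt Q) C₀ (Real.exp C₅) hP1r (by positivity) e5 e2 e3 h7 h8 h9
  have hNlog : ∀ k ∈ R', (fun k : ℤ × ℤ => k.1 * k.2) k ≠ 0 →
      2 * (n : ℝ) * Real.log (((fun k : ℤ × ℤ => k.1 * k.2) k).natAbs : ℕ) ≤ v₀ := by
    intro r hr hNr
    simp only at hNr ⊢
    have hk1 : 1 ≤ (r.1 * r.2).natAbs := Int.natAbs_pos.2 hNr
    have hk0 : (0 : ℝ) < ((r.1 * r.2).natAbs : ℕ) := by exact_mod_cast hk1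
    have h8 : (((r.1 * r.2).natAbs : ℕ) : ℝ) ≤ y ^ 2 := by
      have h10 : (((r.1 * r.2).natAbs : ℕ) : ℝ) = |((r.1 * r.2 : ℤ) : ℝ)| := by rw [Nat.cast_natAbs]; push_cast; rfl
      rw [h10]
      rw [hR', mem_filter, mem_Rect] at hr
      obtain ⟨⟨⟨⟨g1, g2⟩, g3, g4⟩, _⟩, _⟩ := hr
      push_cast
      rw [abs_mul]
      have hr1 : |(r.1 : ℝ)| ≤ N := by
        rw [abs_le]
        constructor
        · have : (1 : ℝ) ≤ r.1 := by exact_mod_cast g1
          have : (0 : ℝ) ≤ N := Nat.cast_nonneg _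
          linarith
        · exact_mod_cast g2
      have hr2 : |(r.2 : ℝ)| ≤ M := by
        rw [abs_le]
        constructor
        · exact_mod_cast g3
        · exact_mod_cast g4
      calc |(r.1 : ℝ)| * |(r.2 : ℝ)| ≤ N * M := mul_le_mul hr1 hr2 (abs_nonneg _) (Nat.cast_nonneg _)
        _ ≤ y * y := hNMyy
        _ = y ^ 2 := by ring
    have h10 : Real.log ((r.1 * r.2).natAbs : ℕ) ≤ Real.log (y ^ 2) := Real.log_le_log hk0 h8
    rw [Real.log_pow] at h10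
    push_cast at h10
    have h11 : (0 : ℝ) ≤ 2 * n := by positivity
    have hn0 : (0 : ℝ) ≤ n := Nat.cast_nonneg _
    calc 2 * (n : ℝ) * Real.log ((r.1 * r.2).natAbs : ℕ) ≤ 2 * n * (2 * Real.log y) := by gcongr
      _ ≤ Real.log y * (2 * Real.log y) := by
          apply mul_le_mul_of_nonneg_right (by linarith) (by positivity)
      _ = 2 * Real.log y ^ 2 := by ring
      _ ≤ Real.log y * Real.log y ^ 2 := by gcongr; linarith
      _ = Real.log y ^ 3 := by ring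
      _ ≤ v₀ := by rw [hv₀]; exact pow_le_pow_right₀ hly1 (by omega)
  have hNzero : (((R'.filter (fun k => (fun k : ℤ × ℤ => k.1 * k.2) k = 0)).card : ℕ) : ℝ) ≤ 1 := by
    have : (R'.filter (fun k => (fun k : ℤ × ℤ => k.1 * k.2) k = 0)).card ≤ 1 := by
      rw [card_le_one]
      have hone : ∀ r ∈ R'.filter (fun k => (fun k : ℤ × ℤ => k.1 * k.2) k = 0), r = ((1 : ℤ), (0 : ℤ)) := by
        intro r hr
        rw [mem_filter, hR', mem_filter, mem_Rect] at hr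
        obtain ⟨⟨⟨⟨⟨g1, g2⟩, g3, g4⟩, g5⟩, _⟩, g6⟩ := hr
        simp only at g6
        have g7 : r.1 ≠ 0 := by omega
        have g8 : r.2 = 0 := by
          rcases mul_eq_zero.1 g6 with h | h
          · exact absurd h g7
          · exact h
        rw [g8, isCoprime_zero_right, Int.isUnit_iff] at g5
        rcases g5 with h | h
        · exact Prod.ext h g8
        · omega
      intro r hr r' hr'
      rw [hone r hr, hone r' hr']
    exact_mod_cast this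
  have hv0 : 0 < v₀ := by rw [hv₀]; positivity
  obtain ⟨s, hs⟩ := greedy_gi S v₀ hv0 (fun p hp => by
      rw [hSdef] at hp
      exact ⟨(hS p hp).1, (hS p hp).2.1⟩) (fun p => (p - 1).gcd n) n
    (fun p _ => Nat.gcd_le_right _ hn) R'
    (fun (p c : ℕ) (k : ℤ × ℤ) => (p : ℤ) ∣ k.2 ^ n - (c : ℤ) ^ n * k.1 ^ n) (fun k : ℤ × ℤ => k.1 * k.2)
    (fun p hp k _ hNt => by
      rw [hSdef] at hp
      have := ratio_classes p (hS p hp).1 n hn k.1 k.2 hNt
      refine le_of_eq ?_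
      convert this) hNlog
  refine ⟨S, s, fun p hp => ⟨?_, hSW p hp, ?_⟩, ?_⟩
  · rw [hSdef] at hp; exact (hS p hp).1
  · rw [hSdef] at hp; exact (hS p hp).2.2
  have hsub1 : (Rect N M).filter (fun k => Okp n W y S k.1 k.2 ∧
        ∀ p ∈ S, ¬ (p : ℤ) ∣ k.2 ^ n - (s p : ℤ) ^ n * k.1 ^ n) ⊆
      R'.filter (fun k => ∀ p ∈ S, ¬ (p : ℤ) ∣ k.2 ^ n - (s p : ℤ) ^ n * k.1 ^ n) := by
    intro t ht
    rw [mem_filter] at ht
    rw [mem_filter, hR', mem_filter]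
    exact ⟨⟨ht.1, ht.2.1⟩, ht.2.2⟩
  have hs' : ((R'.filter (fun k => ∀ p ∈ S, ¬ (p : ℤ) ∣ k.2 ^ n - (s p : ℤ) ^ n * k.1 ^ n)).card : ℝ) ≤
      R'.card * (3 * Real.exp (-∑ p ∈ S, (((p - 1).gcd n : ℕ) : ℝ) / p)) +
        ((R'.filter (fun k => (fun k : ℤ × ℤ => k.1 * k.2) k = 0)).card : ℕ) := by convert hs
  refine (Nat.cast_le.2 (card_le_card hsub1)).trans (hs'.trans ?_)
  -- the value
  obtain ⟨T, hT⟩ : ∃ T : ℝ, T = t ^ (2 * κ) / (Real.log y ^ (D + κ) * Real.log t ^ κ) := ⟨_, rfl⟩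
  have hTexp : Z * Real.exp (-(D * E0)) = T := by
    rw [hZ, hT, ← Real.exp_add]
    have e1 : -(κ * t + (D - κ) * (t - E0)) + -(D * E0) =
        ((2 * κ : ℕ) : ℝ) * Real.log t - (((D + κ : ℕ) : ℝ) * t + (κ : ℝ) * Real.log (Real.log t)) := by
      rw [hE0]; push_cast; ring
    rw [e1, Real.exp_sub, Real.exp_add, Real.exp_nat_mul, Real.exp_nat_mul, Real.exp_nat_mul,
      Real.exp_log ht0, Real.exp_log hlt0, ← hLe]
  have hT0 : 0 < T := by rw [hT]; positivity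
  have hexpS : Real.exp (-∑ p ∈ S, (((p - 1).gcd n : ℕ) : ℝ) / p) ≤ Real.exp C₆ * Real.exp (-(D * E0)) := by
    rw [← Real.exp_add]
    exact Real.exp_le_exp.2 (by linarith)
  have hfin1 : R'.card * (3 * Real.exp (-∑ p ∈ S, (((p - 1).gcd n : ℕ) : ℝ) / p)) ≤
      ((21 + 2 * C₀ * Real.exp C₅) * (3 * Real.exp C₆)) * (N * M * T) := by
    calc R'.card * (3 * Real.exp (-∑ p ∈ S, (((p - 1).gcd n : ℕ) : ℝ) / p))
        ≤ ((21 + 2 * C₀ * Real.exp C₅) * (N * M * Z)) * (3 * (Real.exp C₆ * Real.exp (-(D * E0)))) := by gcongr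
      _ = ((21 + 2 * C₀ * Real.exp C₅) * (3 * Real.exp C₆)) * (N * M * (Z * Real.exp (-(D * E0)))) := by ring
      _ = _ := by rw [hTexp]
  have hfin2 : 1 ≤ N * M * T := by
    rw [hT, ← mul_div_assoc, one_le_div (by positivity)]
    have h14 : Real.log t ^ κ ≤ t ^ (2 * κ) := by
      calc Real.log t ^ κ ≤ t ^ κ := pow_le_pow_left₀ hlt0.le h5 κ
        _ ≤ t ^ (2 * κ) := pow_le_pow_right₀ h1 (by omega)
    exact mul_le_mul ((hpow_y _ (by omega)).trans hyL) h14 (by positivity) hNM0.le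
  have e3 : ((21 + 2 * C₀ * Real.exp C₅) * (3 * Real.exp C₆) + 1) * (N * M) * t ^ (2 * κ) /
      (Real.log y ^ (D + κ) * Real.log t ^ κ) = ((21 + 2 * C₀ * Real.exp C₅) * (3 * Real.exp C₆)) * (N * M * T) +
        N * M * T := by
    rw [hT]; ring
  rw [e3]
  linarith

end Pool.Agent.N893.FR
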