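import Mathlib
import Pool.Agent.N893.FR.AsmP
import Pool.Agent.N893.FR.Surv
import Pool.Agent.N893.PG.Fin

set_option autoImplicit false
set_option maxHeartbeats 8000000

/-! # The forms `a x ^ n + w ^ n` without small primes: the assembly -/

namespace Pool.Agent.N893.FR

open Finset Filter Pool.Agent.N893.QA Pool.Agent.N893.RK Pool.Agent.N893.CF Pool.Agent.N893.MC

open scoped Classical

/-- the linear form attached to a pair -/
def form (n W : ℕ) (a₀ : ℤ) (k : ℤ × ℤ) : ℤ × ℤ := (W * k.1 ^ n, a₀ * k.1 ^ n + k.2 ^ n)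

theorem form_nonprop (n W : ℕ) (hn : 1 ≤ n) (hW : 1 ≤ W) (a₀ : ℤ) (N M : ℕ) (k k' : ℤ × ℤ) (hk : k ∈ Rect N M)
    (hk' : k' ∈ Rect N M)
    (h : (form n W a₀ k).1 * (form n W a₀ k').2 = (form n W a₀ k').1 * (form n W a₀ k).2) :
    form n W a₀ k = form n W a₀ k' := by
  rw [mem_Rect] at hk hk'
  obtain ⟨⟨⟨hk1, _⟩, _, _⟩, hcop⟩ := hk
  obtain ⟨⟨⟨hk1', _⟩, _, _⟩, hcop'⟩ := hk'
  unfold form at h ⊢
  simp only at h ⊢
  have hW0 : (W : ℤ) ≠ 0 := by exact_mod_cast (by omega : W ≠ 0)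
  have h1 : (W : ℤ) * (k.1 ^ n * k'.2 ^ n) = W * (k'.1 ^ n * k.2 ^ n) := by linear_combination h
  have h2 := mul_left_cancel₀ hW0 h1
  have hc1 : IsCoprime (k.1 ^ n) (k.2 ^ n) := hcop.pow
  have hc2 : IsCoprime (k'.1 ^ n) (k'.2 ^ n) := hcop'.pow
  have h3 : k.1 ^ n ∣ k'.1 ^ n := hc1.dvd_of_dvd_mul_right ⟨k'.2 ^ n, h2.symm⟩
  have h4 : k'.1 ^ n ∣ k.1 ^ n := hc2.dvd_of_dvd_mul_right ⟨k.2 ^ n, h2⟩
  have hp1 : 0 ≤ k.1 ^ n := by positivity
  have hp2 : 0 ≤ k'.1 ^ n := by positivity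
  have h5 : k.1 ^ n = k'.1 ^ n := Int.dvd_antisymm hp1 hp2 h3 h4
  have h6 : k'.1 ^ n ≠ 0 := by positivity
  rw [h5] at h2
  have h7 := mul_left_cancel₀ h6 h2
  rw [h5, h7]

theorem Rect_mono (N N' M : ℕ) (h : N ≤ N') : Rect N M ⊆ Rect N' M := by
  intro k hk
  rw [mem_Rect] at hk ⊢
  have : (N : ℤ) ≤ N' := by exact_mod_cast h
  exact ⟨⟨⟨hk.1.1.1, hk.1.1.2.trans this⟩, hk.1.2⟩, hk.2⟩

theorem Rect_card (N M : ℕ) (hM : 1 ≤ M) : (Rect N M).card ≤ 3 * (N * M) := by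
  unfold Rect
  refine (card_filter_le _ _).trans ?_
  rw [card_product, Int.card_Icc, Int.card_Icc]
  have h1 : ((N : ℤ) + 1 - 1).toNat = N := by simp
  have h2 : ((M : ℤ) + 1 - -(M : ℤ)).toNat = 2 * M + 1 := by omega
  rw [h1, h2]
  nlinarith

theorem main_m (n : ℕ) (hn : 1 ≤ n) (W : ℕ) (hW : 1 ≤ W) (a₀ : ℤ) :
    ∃ c : ℝ, 0 < c ∧ ∃ X₀ : ℝ, ∀ X : ℝ, X₀ ≤ X → ∀ N M : ℕ, 1 ≤ N → 1 ≤ M →
      (N : ℝ) * M ≤ c * (Real.log X * (Real.log (Real.log X)) ^ (n.divisors.card + kap n) *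
          (Real.log (Real.log (Real.log (Real.log X)))) ^ (kap n) /
            (Real.log (Real.log (Real.log X))) ^ (2 * kap n)) → ∀ z : ℤ,
      ∃ m : ℤ, (z : ℝ) + X / 4 < m ∧ (m : ℝ) ≤ z + X ∧
        ∀ k ∈ Rect N M, ¬ Prime ((form n W a₀ k).1 * m + (form n W a₀ k).2) := by
  obtain ⟨C, hC, y₀, hsurv⟩ := survivors_fr n hn W hW
  obtain ⟨c₀, hc₀, X₁, hass⟩ := assembleP 1
  obtain ⟨x₀, hhalf⟩ := ev_log_half
  obtain ⟨e₁, he₁⟩ : ∃ e₁ : ℕ, e₁ = n.divisors.card + kap n := ⟨_, rfl⟩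
  obtain ⟨e₂, he₂⟩ : ∃ e₂ : ℕ, e₂ = kap n := ⟨_, rfl⟩
  have hkp := kap_pos n
  obtain ⟨e₃, he₃⟩ : ∃ e₃ : ℕ, e₃ = 2 * kap n := ⟨_, rfl⟩
  have he11 : 1 ≤ e₁ := by omega
  have he23 : e₂ ≤ e₃ := by omega
  rw [← he₁, ← he₃, ← he₂] at hsurv
  rw [← he₁, ← he₃, ← he₂]
  set c₂ : ℝ := min 1 (5 * c₀ / C) with hc₂
  have hc₂0 : 0 < c₂ := lt_min one_pos (by positivity)
  have hc₂1 : c₂ ≤ 1 := min_le_left _ _
  have hc₂C : C * c₂ ≤ 5 * c₀ := by
    have : c₂ ≤ 5 * c₀ / C := min_le_right _ _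
    rwa [le_div_iff₀ hC, mul_comm] at this
  -- thresholds
  obtain ⟨x₁, hx₁⟩ := eventually_atTop.1 (ev_pow 4 e₁)
  obtain ⟨x₂, hx₂⟩ := eventually_atTop.1 (ev_pow (2 / c₂) e₃)
  obtain ⟨x₃, hx₃⟩ := eventually_atTop.1 (ev_exp_pow (W + |(a₀ : ℝ)| + 1) (2 * n))
  have hlog1 := Real.tendsto_log_atTop
  have hl2 := hlog1.comp hlog1
  have hl3 := hlog1.comp hl2
  have hl4 := hlog1.comp hl3
  have hall := (((((hlog1.eventually_ge_atTop (max (max (20 * x₁) (max (20 * x₃) (20 * y₀)))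
      (max x₀ 20))).and
    (hl2.eventually_ge_atTop (max (max (2 * x₂) x₀) 20))).and
    (hl3.eventually_ge_atTop (max x₀ 20))).and (hl4.eventually_ge_atTop 20)).and
    (eventually_ge_atTop (max X₁ 1000)))
  obtain ⟨X₀, hX₀⟩ := eventually_atTop.1 hall
  refine ⟨c₂ / (20 * 2 ^ e₁ * 2 ^ e₂), by positivity, X₀, fun X hX N M hN1 hM1 hNM z => ?_⟩
  obtain ⟨⟨⟨⟨g1, g2⟩, g3⟩, g4⟩, g5⟩ := hX₀ X hX
  simp only [Function.comp_apply] at g2 g3 g4
  set L1 := Real.log X with hL1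
  set L2 := Real.log L1 with hL2
  set L3 := Real.log L2 with hL3
  set L4 := Real.log L3 with hL4
  simp only [max_le_iff] at g1 g2 g3 g5
  obtain ⟨⟨g1a, g1a', g1b⟩, g1c, g1e⟩ := g1
  obtain ⟨⟨g2a, g2b⟩, g2c⟩ := g2
  obtain ⟨g3a, g3b⟩ := g3
  obtain ⟨g5a, g5b⟩ := g5
  set y := L1 / 10 with hy
  have hyX' : L1 = 10 * y := by rw [hy]; ring
  have hy1 : L1 / 20 ≤ y := by rw [hy]; linarith
  have hy2 : y ≤ L1 := by rw [hy]; linarith
  have hy0 : 0 < y := by linarith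
  have hyx1 : x₁ ≤ y := by linarith
  have hyx3 : x₃ ≤ y := by linarith
  have hyy0 : y₀ ≤ y := by linarith
  have hy_1 : 1 ≤ y := by linarith
  set ly := Real.log y with hly
  have hly1 : L2 / 2 ≤ ly := (hhalf L1 g1c).2 y hy1
  have hly2 : ly ≤ L2 := Real.log_le_log hy0 hy2
  have hly0 : 0 < ly := by linarith
  set lly := Real.log ly with hlly
  have hlly1 : L3 / 2 ≤ lly := (hhalf L2 g2b).2 ly (by linarith)
  have hlly2 : lly ≤ L3 := Real.log_le_log hly0 hly2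
  have hlly0 : 0 < lly := by linarith
  set llly := Real.log lly with hllly
  have hllly1 : L4 / 2 ≤ llly := (hhalf L3 g3a).2 lly (by linarith)
  have hllly2 : llly ≤ L4 := Real.log_le_log hlly0 hlly2
  have hllly0 : 0 < llly := by linarith
  have hllly_le : llly ≤ lly := (Real.log_le_sub_one_of_pos hlly0).trans (by linarith)
  have hP1 : 4 * ly ^ e₁ ≤ y := hx₁ y hyx1
  have hP2 : 2 / c₂ * lly ^ e₃ ≤ ly := hx₂ ly (by linarith)
  have hP3 : (W + |(a₀ : ℝ)| + 1) * y ^ (2 * n) ≤ Real.exp y := hx₃ y hyx3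
  set V : ℝ := c₂ * y * ly ^ e₁ * llly ^ e₂ / lly ^ e₃ with hV
  have hV0 : 0 < V := by positivity
  have hly_1 : 1 ≤ ly := by linarith
  have hllly_1 : 1 ≤ llly := by linarith
  have hlly_1 : 1 ≤ lly := by linarith
  have hlyle : ly ≤ ly ^ e₁ := by
    calc ly = ly ^ 1 := (pow_one _).symm
      _ ≤ ly ^ e₁ := pow_le_pow_right₀ hly_1 he11
  have hlye : ly ^ e₁ ≤ y := by
    have h1 : 0 ≤ ly ^ e₁ := by positivity
    linarith
  -- (a) y ≤ V / 2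
  have hWy : 2 * y ≤ V := by
    rw [hV, le_div_iff₀ (by positivity)]
    have e1 : 2 * lly ^ e₃ ≤ c₂ * ly := by
      have := mul_le_mul_of_nonneg_left hP2 hc₂0.le
      calc 2 * lly ^ e₃ = c₂ * (2 / c₂ * lly ^ e₃) := by field_simp
        _ ≤ _ := this
    have e2 : (1 : ℝ) ≤ llly ^ e₂ := one_le_pow₀ hllly_1
    calc 2 * y * lly ^ e₃ = y * (2 * lly ^ e₃) := by ring
      _ ≤ y * (c₂ * ly) := by gcongr
      _ ≤ y * (c₂ * ly ^ e₁) := by gcongr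
      _ = c₂ * y * ly ^ e₁ * 1 := by ring
      _ ≤ c₂ * y * ly ^ e₁ * llly ^ e₂ := by gcongr
  -- (b) V ≤ y * ly ^ e₁
  have hV_le : V ≤ y * ly ^ e₁ := by
    have e1 : V = c₂ * y * ly ^ e₁ * (llly ^ e₂ / lly ^ e₃) := by
      rw [hV]; field_simp
    rw [e1]
    have e2 : llly ^ e₂ / lly ^ e₃ ≤ 1 := by
      rw [div_le_one (by positivity)]
      calc llly ^ e₂ ≤ lly ^ e₂ := pow_le_pow_left₀ hllly0.le hllly_le e₂
        _ ≤ lly ^ e₃ := pow_le_pow_right₀ hlly_1 he23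
    calc c₂ * y * ly ^ e₁ * (llly ^ e₂ / lly ^ e₃) ≤ 1 * y * ly ^ e₁ * 1 := by gcongr
      _ = _ := by ring
  have hVyy : V ≤ y ^ 2 := by
    calc V ≤ y * ly ^ e₁ := hV_le
      _ ≤ y * y := by gcongr
      _ = y ^ 2 := by ring
  -- the enlarged rectangle
  have hNMV : (N : ℝ) * M ≤ V := by
    refine hNM.trans ?_
    have e1 : V = c₂ * (y * ly ^ e₁ * llly ^ e₂ / lly ^ e₃) := by
      rw [hV]; field_simp
    rw [e1]
    have e2 : c₂ / (20 * 2 ^ e₁ * 2 ^ e₂) * (L1 * L2 ^ e₁ * L4 ^ e₂ / L3 ^ e₃) =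
        c₂ * ((L1 / 20) * (L2 / 2) ^ e₁ * (L4 / 2) ^ e₂ / L3 ^ e₃) := by
      rw [div_pow, div_pow]
      field_simp
    rw [e2]
    have hL2' : 0 ≤ L2 / 2 := by linarith
    have hL4' : 0 ≤ L4 / 2 := by linarith
    have hL1'' : 0 ≤ L1 / 20 := by linarith
    gcongr
  have hM1r : (1 : ℝ) ≤ M := by exact_mod_cast hM1
  have hM0r : (0 : ℝ) < M := by linarith
  have hN1r : (1 : ℝ) ≤ N := by exact_mod_cast hN1
  obtain ⟨N', hN'⟩ : ∃ N' : ℕ, N' = ⌊V / M⌋₊ := ⟨_, rfl⟩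
  have hN'V : (N' : ℝ) * M ≤ V := by
    have := Nat.floor_le (show 0 ≤ V / M by positivity)
    rw [← hN', le_div_iff₀ hM0r] at this
    exact this
  have hN'V2 : V < (N' + 1) * M := by
    have := Nat.lt_floor_add_one (V / M)
    rw [← hN', div_lt_iff₀ hM0r] at this
    exact this
  have hNN' : N ≤ N' := by
    rw [hN']
    apply Nat.le_floor
    rw [le_div_iff₀ hM0r]
    exact hNMV
  have hN'1r : (1 : ℝ) ≤ N' := by
    have : (N : ℝ) ≤ N' := by exact_mod_cast hNN'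
    linarith
  have hyN' : y ≤ (N' : ℝ) * M := by
    by_cases h : (M : ℝ) ≤ V / 2
    · nlinarith
    · push Not at h
      nlinarith
  obtain ⟨S, s, hS, hs⟩ := hsurv y hyy0 N' M hyN' (hN'V.trans hV_le)
  -- the classes
  have hβ : ∀ p : ℕ, ∃ β : ℕ, (p.Prime → ¬ p ∣ W →
      (p : ℤ) ∣ (W : ℤ) * β - (if p ∈ S then -(a₀ + (s p : ℤ) ^ n) else -(a₀ + 1))) := by
    intro p
    by_cases h : p.Prime ∧ ¬ p ∣ W
    · obtain ⟨β, hβ⟩ := inv_nat p h.1 W (fun h' => h.2 (Int.natCast_dvd_natCast.1 h'))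
        (if p ∈ S then -(a₀ + (s p : ℤ) ^ n) else -(a₀ + 1))
      exact ⟨β, fun _ _ => hβ⟩
    · exact ⟨0, fun h1 h2 => absurd ⟨h1, h2⟩ h⟩
  choose β hβ using hβ
  obtain ⟨A, hA⟩ : ∃ A : Finset (ℤ × ℤ), A = (Rect N' M).image (form n W a₀) := ⟨_, rfl⟩
  have hAcard : (A.card : ℝ) ≤ L1 ^ 2 := by
    have h1 : A.card ≤ 3 * (N' * M) := by
      rw [hA]
      exact card_image_le.trans (Rect_card N' M hM1)
    have h2 : (A.card : ℝ) ≤ 3 * ((N' : ℝ) * M) := by exact_mod_cast h1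
    rw [hyX']
    have h3 : 0 ≤ y ^ 2 := by positivity
    have h4 : (10 * y) ^ 2 = 100 * y ^ 2 := by ring
    rw [h4]
    linarith
  have hAbd : ∀ k ∈ A, k.1 ≠ 0 ∧ |((k.1 : ℤ) : ℝ)| ≤ Real.exp (L1 ^ 1) ∧ |((k.2 : ℤ) : ℝ)| ≤ Real.exp (L1 ^ 1) := by
    intro k hk
    rw [hA, mem_image] at hk
    obtain ⟨q, hq, rfl⟩ := hk
    rw [mem_Rect] at hq
    obtain ⟨⟨⟨hq1, hq2⟩, hq3, hq4⟩, _⟩ := hq
    have hexp : Real.exp y ≤ Real.exp (L1 ^ 1) := by rw [pow_one]; exact Real.exp_le_exp.2 hy2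
    have hN'y : (N' : ℝ) ≤ y ^ 2 := by
      have : (N' : ℝ) ≤ N' * M := le_mul_of_one_le_right (by linarith) hM1r
      linarith
    have hMy : (M : ℝ) ≤ y ^ 2 := by
      have : (M : ℝ) ≤ N' * M := le_mul_of_one_le_left hM0r.le hN'1r
      linarith
    have a1 : |(q.1 : ℝ)| ≤ y ^ 2 := by
      have e1 : (1 : ℝ) ≤ q.1 := by exact_mod_cast hq1
      have e2 : (q.1 : ℝ) ≤ N' := by exact_mod_cast hq2
      rw [abs_le]; constructor <;> linarith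
    have a2 : |(q.2 : ℝ)| ≤ y ^ 2 := by
      have e1 : (-(M : ℝ)) ≤ q.2 := by exact_mod_cast hq3
      have e2 : (q.2 : ℝ) ≤ M := by exact_mod_cast hq4
      rw [abs_le]; constructor <;> linarith
    have b1 : |(q.1 : ℝ)| ^ n ≤ y ^ (2 * n) := by
      rw [pow_mul]; exact pow_le_pow_left₀ (abs_nonneg _) a1 n
    have b2 : |(q.2 : ℝ)| ^ n ≤ y ^ (2 * n) := by
      rw [pow_mul]; exact pow_le_pow_left₀ (abs_nonneg _) a2 n
    have hy2n : 0 ≤ y ^ (2 * n) := by positivity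
    have hW0r : (0 : ℝ) ≤ W := Nat.cast_nonneg _
    have ha0 := abs_nonneg (a₀ : ℝ)
    have hWy0 : 0 ≤ (W : ℝ) * y ^ (2 * n) := by positivity
    have hay0 : 0 ≤ |(a₀ : ℝ)| * y ^ (2 * n) := by positivity
    have hsum : (W + |(a₀ : ℝ)| + 1) * y ^ (2 * n) = W * y ^ (2 * n) + |(a₀ : ℝ)| * y ^ (2 * n) + y ^ (2 * n) := by ring
    refine ⟨?_, ?_, ?_⟩
    · unfold form
      simp only
      have h1 : (W : ℤ) ≠ 0 := by exact_mod_cast (by omega : W ≠ 0)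
      have h2 : q.1 ^ n ≠ 0 := by positivity
      exact mul_ne_zero h1 h2
    · unfold form
      push_cast
      rw [abs_mul, abs_pow, abs_of_nonneg hW0r]
      have h1 := mul_le_mul_of_nonneg_left b1 hW0r
      linarith
    · unfold form
      push_cast
      have h1 := abs_add_le ((a₀ : ℝ) * (q.1 : ℝ) ^ n) ((q.2 : ℝ) ^ n)
      rw [abs_mul, abs_pow, abs_pow] at h1
      have h2 := mul_le_mul_of_nonneg_left b1 ha0
      linarith
  have hAnp : ∀ k ∈ A, ∀ k' ∈ A, k ≠ k' → k.1 * k'.2 ≠ k'.1 * k.2 := by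
    intro k hk k' hk' hne heq
    rw [hA, mem_image] at hk hk'
    obtain ⟨q, hq, rfl⟩ := hk
    obtain ⟨q', hq', rfl⟩ := hk'
    exact hne (form_nonprop n W hn hW a₀ N' M q q' hq hq' heq)
  have hAS : (((A.filter (fun k => ∀ p : ℕ, p.Prime → (p : ℝ) ≤ L1 / 10 →
      ¬ (p : ℤ) ∣ k.1 * (β p : ℤ) + k.2)).card : ℕ) : ℝ) ≤ c₀ * L1 := by
    have hsub : A.filter (fun k => ∀ p : ℕ, p.Prime → (p : ℝ) ≤ L1 / 10 → ¬ (p : ℤ) ∣ k.1 * (β p : ℤ) + k.2) ⊆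
        ((Rect N' M).filter (fun k => Okp n W y S k.1 k.2 ∧
          ∀ p ∈ S, ¬ (p : ℤ) ∣ k.2 ^ n - (s p : ℤ) ^ n * k.1 ^ n)).image (form n W a₀) := by
      intro k hk
      rw [mem_filter, hA, mem_image] at hk
      obtain ⟨⟨q, hq, rfl⟩, hall⟩ := hk
      rw [mem_image]
      refine ⟨q, mem_filter.2 ⟨hq, ?_, ?_⟩, rfl⟩
      · intro p hp hpW hpy hpS hd
        apply hall p hp hpy
        have h1 := (hβ p hp hpW).mul_left (q.1 ^ n)
        rw [if_neg hpS] at h1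
        have h3 := dvd_add h1 hd
        refine h3.trans (dvd_of_eq ?_)
        unfold form
        ring
      · intro p hpS hd
        obtain ⟨hp, hpW, hpy⟩ := hS p hpS
        apply hall p hp hpy
        have h1 := (hβ p hp hpW).mul_left (q.1 ^ n)
        rw [if_pos hpS] at h1
        have h3 := dvd_add h1 hd
        refine h3.trans (dvd_of_eq ?_)
        unfold form
        ring
    have h1 : (((A.filter (fun k => ∀ p : ℕ, p.Prime → (p : ℝ) ≤ L1 / 10 →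
      ¬ (p : ℤ) ∣ k.1 * (β p : ℤ) + k.2)).card : ℕ) : ℝ) ≤ (((Rect N' M).filter (fun k => Okp n W y S k.1 k.2 ∧
          ∀ p ∈ S, ¬ (p : ℤ) ∣ k.2 ^ n - (s p : ℤ) ^ n * k.1 ^ n)).card : ℝ) := by
      exact_mod_cast (card_le_card hsub).trans card_image_le
    refine h1.trans (hs.trans ?_)
    have h3 : C * (N' * M) * lly ^ e₃ / (ly ^ e₁ * llly ^ e₂) ≤ C * c₂ * y := by
      calc C * (N' * M) * lly ^ e₃ / (ly ^ e₁ * llly ^ e₂) ≤ C * V * lly ^ e₃ / (ly ^ e₁ * llly ^ e₂) := by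
            gcongr
        _ = C * c₂ * y := by
            rw [hV]
            field_simp
    have h4 : C * c₂ * y ≤ 5 * c₀ * y := by gcongr
    refine h3.trans (h4.trans ?_)
    rw [hyX']
    have : 0 ≤ c₀ * y := by positivity
    linarith
  obtain ⟨m, hm1, hm2, _, hm4⟩ := hass X g5a (ℤ × ℤ) A Prod.fst Prod.snd hAcard hAbd hAnp β hAS z
  refine ⟨m, hm1, hm2, fun k hk => ?_⟩
  apply hm4
  rw [hA, mem_image]
  exact ⟨k, Rect_mono N N' M hNN' hk, rfl⟩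

theorem mainR (n : ℕ) (hn : 2 ≤ n) (W : ℕ) (hW : 1 ≤ W) (a₀ : ℤ) :
    ∃ c : ℝ, 0 < c ∧ ∃ X₀ : ℝ, ∀ X : ℝ, X₀ ≤ X → ∀ N M : ℕ, 1 ≤ N → 1 ≤ M →
      (N : ℝ) * M ≤ c * (Real.log X * (Real.log (Real.log X)) ^ (n.divisors.card + kap n) *
          (Real.log (Real.log (Real.log (Real.log X)))) ^ (kap n) /
            (Real.log (Real.log (Real.log X))) ^ (2 * kap n)) → ∀ z : ℤ,
      ∃ a : ℤ, (z : ℝ) < a ∧ (a : ℝ) ≤ z + X ∧ (W : ℤ) ∣ a - a₀ ∧
        ∀ x w : ℤ, |x| ≤ N → |w| ≤ M → ¬ Prime (a * x ^ n + w ^ n) := by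
  obtain ⟨c, hc, X₁, hasm⟩ := main_m n (by omega) W hW a₀
  -- from `X` to `X / (2 W)`
  have hWr : (1 : ℝ) ≤ W := by exact_mod_cast hW
  set δ : ℝ := 1 / (2 * W) with hδ
  have hδ0 : 0 < δ := by positivity
  have hδ1 : δ ≤ 1 := by rw [hδ, div_le_one (by positivity)]; linarith
  obtain ⟨X₂, hsc⟩ := PG.scale_F δ hδ0 hδ1 (n.divisors.card + kap n) (kap n) (2 * kap n)
  refine ⟨c / 2 ^ (1 + (n.divisors.card + kap n) + kap n), by positivity, max X₂ (max (2 * W * X₁) (8 * W)),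
    fun X hX N M hN1 hM1 hNM z => ?_⟩
  have hX2 := hsc X ((le_max_left _ _).trans hX)
  have hXa : 2 * W * X₁ ≤ X := (le_max_left _ _).trans ((le_max_right _ _).trans hX)
  have hXb : 8 * (W : ℝ) ≤ X := (le_max_right _ _).trans ((le_max_right _ _).trans hX)
  have hX1 : X₁ ≤ δ * X := by
    rw [hδ, div_mul_eq_mul_div, one_mul, le_div_iff₀ (by positivity)]
    linarith
  obtain ⟨m, hm1, hm2, hm⟩ := hasm (δ * X) hX1 N M hN1 hM1 (by
    refine hNM.trans ?_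
    rw [div_mul_eq_mul_div, div_le_iff₀ (by positivity), mul_assoc c,
      mul_comm _ ((2 : ℝ) ^ (1 + (n.divisors.card + kap n) + kap n))]
    exact mul_le_mul_of_nonneg_left hX2 hc.le) ((z - a₀) / W)
  have hWz : (0 : ℤ) < W := by exact_mod_cast hW
  have hz1 : W * ((z - a₀) / W) ≤ z - a₀ := Int.mul_ediv_self_le hWz.ne'
  have hz2 : z - a₀ < W * ((z - a₀) / W) + W := Int.lt_mul_ediv_self_add hWz
  have hz1r : (W : ℝ) * (((z - a₀) / W : ℤ) : ℝ) ≤ z - a₀ := by exact_mod_cast hz1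
  have hz2r : (z : ℝ) - a₀ < W * (((z - a₀) / W : ℤ) : ℝ) + W := by exact_mod_cast hz2
  have hWX : (W : ℝ) * (δ * X) = X / 2 := by rw [hδ]; field_simp
  have hW0 : (0 : ℝ) < W := by linarith
  refine ⟨W * m + a₀, ?_, ?_, ⟨m, by ring⟩, ?_⟩
  · push_cast
    have h1 := mul_lt_mul_of_pos_left hm1 hW0
    have h2 : (W : ℝ) * ((((z - a₀) / W : ℤ) : ℝ) + δ * X / 4) = W * (((z - a₀) / W : ℤ) : ℝ) + (W * (δ * X)) / 4 := by
      ring
    rw [h2, hWX] at h1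
    linarith
  · push_cast
    have h1 := mul_le_mul_of_nonneg_left hm2 hW0.le
    rw [mul_add, hWX] at h1
    linarith
  · -- coprime pairs with positive `x`
    have hpos : ∀ x w : ℤ, |x| ≤ N → |w| ≤ M → IsCoprime x w → 1 ≤ x → ¬ Prime ((W * m + a₀) * x ^ n + w ^ n) := by
      intro x w hx hw hc hx1
      have h1 := hm (x, w) (by
        rw [mem_Rect]
        rw [abs_le] at hx hw
        exact ⟨⟨⟨hx1, hx.2⟩, hw.1, hw.2⟩, hc⟩)
      unfold form at h1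
      simp only at h1
      have h2 : (W : ℤ) * x ^ n * m + (a₀ * x ^ n + w ^ n) = (W * m + a₀) * x ^ n + w ^ n := by ring
      rwa [h2] at h1
    intro x w hx hw hpr
    by_cases hx0 : x = 0
    · rw [hx0, zero_pow (by omega), mul_zero, zero_add] at hpr
      exact not_prime_pow (by omega) hpr
    by_cases hc : IsCoprime x w
    · rcases lt_or_gt_of_ne hx0 with h | h
      · have h1 := hpos (-x) (-w) (by rwa [abs_neg]) (by rwa [abs_neg]) hc.neg_neg (by linarith)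
        apply h1
        have h2 : (W * m + a₀) * (-x) ^ n + (-w) ^ n = (-1) ^ n * ((W * m + a₀) * x ^ n + w ^ n) := by
          rw [neg_pow x, neg_pow w]; ring
        rw [h2]
        rcases neg_one_pow_eq_or ℤ n with h3 | h3
        · rw [h3, one_mul]; exact hpr
        · rw [h3, neg_one_mul]; exact hpr.neg
      · exact hpos x w hx hw hc h hpr
    · -- a common factor
      obtain ⟨g, hg⟩ : ∃ g : ℕ, g = Int.gcd x w := ⟨_, rfl⟩
      have hg1 : g ≠ 1 := by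
        intro h
        rw [h] at hg
        exact hc (Int.isCoprime_iff_gcd_eq_one.2 hg.symm)
      obtain ⟨x', hx'⟩ := (Int.gcd_dvd_left x w)
      obtain ⟨w', hw'⟩ := (Int.gcd_dvd_right x w)
      rw [← hg] at hx' hw'
      have h1 : (W * m + a₀) * x ^ n + w ^ n = (g : ℤ) ^ n * ((W * m + a₀) * x' ^ n + w' ^ n) := by
        rw [hx', hw', mul_pow, mul_pow]; ring
      rw [h1] at hpr
      rcases hpr.irreducible.isUnit_or_isUnit rfl with h2 | h2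
      · have h3 : IsUnit (g : ℤ) := (isUnit_pow_iff (by omega)).1 h2
        rw [Int.isUnit_iff] at h3
        rcases h3 with h3 | h3
        · exact hg1 (by exact_mod_cast h3)
        · have : (0 : ℤ) ≤ g := by positivity
          linarith
      · have h3 : Prime ((g : ℤ) ^ n) := by
          obtain ⟨u, hu⟩ := h2
          have h4 : Associated ((g : ℤ) ^ n) ((g : ℤ) ^ n * ((W * m + a₀) * x' ^ n + w' ^ n)) :=
            ⟨u, by rw [hu]⟩
          exact h4.symm.prime hpr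
        exact not_prime_pow (by omega) h3

end Pool.Agent.N893.FR
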